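import Pool.Agent.H75.BC.T.AC
import Pool.Agent.H75.BC.T.An
import Pool.Agent.H75.BC.T.Apx
import Pool.Agent.H75.BC.T.Bur
import Pool.Agent.H75.BC.T.CTa
import Pool.Agent.H75.BC.T.Col
import Pool.Agent.H75.BC.T.Col0
import Pool.Agent.H75.BC.T.Cor
import Pool.Agent.H75.BC.T.Dn
import Pool.Agent.H75.BC.T.Ev
import Pool.Agent.H75.BC.T.Ex9
import Pool.Agent.H75.BC.T.F1c
import Pool.Agent.H75.BC.T.FR4a
import Pool.Agent.H75.BC.T.FR4b
import Pool.Agent.H75.BC.T.Fin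
import Pool.Agent.H75.BC.T.Flow
import Pool.Agent.H75.BC.T.Fr
import Pool.Agent.H75.BC.T.FrA
import Pool.Agent.H75.BC.T.FrB
import Pool.Agent.H75.BC.T.FrW
import Pool.Agent.H75.BC.T.FrX
import Pool.Agent.H75.BC.T.Jc
import Pool.Agent.H75.BC.T.Lip
import Pool.Agent.H75.BC.T.Poi
import Pool.Agent.H75.BC.T.Sl
import Pool.Agent.H75.BC.T.Un
import Pool.Agent.H75.BC.T.Vc
import Pool.Agent.H75.BC.T.CT2

/-!
All components of PROJECT BIC as closed theorems.
-/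

set_option autoImplicit false

namespace Pool.Agent.Lead.BCB

open Pool.Agent.W662.CB Pool.Agent.H75.BC

theorem aApx : S_Apx := pApx
theorem aJ : S_J := pJ
theorem aPoi : S_Poi := s_Poi
theorem aPer : S_Per := s_Per
theorem aL : S_L := Lip.lip
theorem aAn : S_An := s_An VC.qA2 aApx aPoi
theorem aAC : S_AC := AC.ac (Un.un Bur.bur') Dn.dn
theorem aSl : S_Sl := s_Sl
theorem aV : S_V := pV
theorem aCol : S_Col := Col.col (Col0.col0 aSl aV)
theorem aEx : S_Ex := Ex.ex_of Fin.fin1 Fin.fin2 aSl aCol Cor.cor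
theorem aF1c : S_F1c := F1c.f1c
theorem aEv : S_Ev := Ev.pEv aF1c
theorem aInj : S_Inj := Ev.pInj aF1c
theorem aFlow : S_Flow := s_Flow aAn
theorem aCTa : S_CTa := CTa.pCTa aF1c aEv
theorem aCT : S_CT := T.CT2.main aCTa aPer aEv
theorem aFr : S_Fr := Fr.fr FrA.frA FrB.frB T.FR4b.main T.FR4a.main FrX.frX FrW.frW

end Pool.Agent.Lead.BCB
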