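import Pool.Agent.Lead.BCB.DT

/-!
Phase B (lead): multiplication by a bounded strongly continuous operator-valued function on `L²(ℝ; H)`.
-/

set_option autoImplicit false

open MeasureTheory Filter Topology Complex
open scoped InnerProductSpace ENNReal

namespace Pool.Agent.Lead.BCB

open Pool.Agent.W662.CB Pool.Agent.H75.BC

noncomputable section

variable {H : Type} [NormedAddCommGroup H] [InnerProductSpace ℂ H] [CompleteSpace H]

/-- `T` is the multiplication by the operator-valued function `g` -/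
def IsOM (g : ℝ → H →L[ℂ] H) (T : LR H →L[ℂ] LR H) : Prop :=
  ∀ f : LR H, (T f : ℝ → H) =ᵐ[volume] fun s => g s (f s)

theorem om_cont {g : ℝ → H →L[ℂ] H} {C : ℝ} (hc : ∀ v : H, Continuous fun s : ℝ => g s v)
    (hb : ∀ s : ℝ, ‖g s‖ ≤ C) : Continuous fun x : ℝ × H => g x.1 x.2 := by
  rw [continuous_iff_continuousAt]
  rintro ⟨s, v⟩
  unfold ContinuousAt
  have h1 : Tendsto (fun x : ℝ × H => g x.1 (x.2 - v)) (𝓝 (s, v)) (𝓝 0) := by
    rw [tendsto_zero_iff_norm_tendsto_zero]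
    have h2 : Tendsto (fun x : ℝ × H => C * ‖x.2 - v‖) (𝓝 (s, v)) (𝓝 0) := by
      have h3 : Continuous fun x : ℝ × H => C * ‖x.2 - v‖ := by fun_prop
      have h4 := h3.tendsto (s, v)
      simpa using h4
    exact squeeze_zero (fun _ => norm_nonneg _) (fun x => (g x.1).le_of_opNorm_le (hb x.1) _) h2
  have h5 : Tendsto (fun x : ℝ × H => g x.1 v) (𝓝 (s, v)) (𝓝 (g s v)) :=
    ((hc v).comp continuous_fst).tendsto (s, v)
  have h6 := h1.add h5
  rw [zero_add] at h6
  refine h6.congr fun x => ?_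
  rw [← map_add, sub_add_cancel]

theorem om_memLp {g : ℝ → H →L[ℂ] H} {C : ℝ} (hc : ∀ v : H, Continuous fun s : ℝ => g s v)
    (hb : ∀ s : ℝ, ‖g s‖ ≤ C) (f : LR H) : MemLp (fun s => g s (f s)) 2 (volume : Measure ℝ) := by
  have hm : AEStronglyMeasurable (fun s : ℝ => g s (f s)) volume :=
    (om_cont hc hb).comp_aestronglyMeasurable
      (aestronglyMeasurable_id.prodMk (Lp.memLp f).aestronglyMeasurable)
  exact (Lp.memLp f).of_le_mul hm (Eventually.of_forall fun s => (g s).le_of_opNorm_le (hb s) _)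

theorem exists_om {g : ℝ → H →L[ℂ] H} {C : ℝ} (hc : ∀ v : H, Continuous fun s : ℝ => g s v)
    (hb : ∀ s : ℝ, ‖g s‖ ≤ C) : ∃ T : LR H →L[ℂ] LR H, IsOM g T := by
  let T0 : LR H →ₗ[ℂ] LR H :=
    { toFun := fun f => (om_memLp hc hb f).toLp _
      map_add' := fun f f' => by
        refine Lp.ext ?_
        filter_upwards [(om_memLp hc hb (f + f')).coeFn_toLp, (om_memLp hc hb f).coeFn_toLp,
          (om_memLp hc hb f').coeFn_toLp, Lp.coeFn_add f f',
          Lp.coeFn_add ((om_memLp hc hb f).toLp _) ((om_memLp hc hb f').toLp _)] with s h1 h2 h3 h4 h5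
        rw [h1, h5, Pi.add_apply, h2, h3, h4, Pi.add_apply, map_add]
      map_smul' := fun c f => by
        refine Lp.ext ?_
        filter_upwards [(om_memLp hc hb (c • f)).coeFn_toLp, (om_memLp hc hb f).coeFn_toLp,
          Lp.coeFn_smul c f, Lp.coeFn_smul c ((om_memLp hc hb f).toLp _)] with s h1 h2 h3 h4
        rw [h1, RingHom.id_apply, h4, Pi.smul_apply, h2, h3, Pi.smul_apply, map_smul] }
  have hT0 : ∀ f : LR H, (T0 f : ℝ → H) =ᵐ[volume] fun s => g s (f s) := fun f =>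
    (om_memLp hc hb f).coeFn_toLp
  refine ⟨T0.mkContinuous C fun f => ?_, hT0⟩
  refine Lp.norm_le_mul_norm_of_ae_le_mul ?_
  filter_upwards [hT0 f] with s hs
  rw [hs]
  exact (g s).le_of_opNorm_le (hb s) _

theorem om_norm {g : ℝ → H →L[ℂ] H} {T : LR H →L[ℂ] LR H} (hT : IsOM g T)
    (hg : ∀ (s : ℝ) (v : H), ‖g s v‖ = ‖v‖) (f : LR H) : ‖T f‖ = ‖f‖ := by
  refine le_antisymm (Lp.norm_le_norm_of_ae_le ?_) (Lp.norm_le_norm_of_ae_le ?_)
  · filter_upwards [hT f] with s hs
    rw [hs, hg]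
  · filter_upwards [hT f] with s hs
    rw [hs, hg]

end

end Pool.Agent.Lead.BCB
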