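import Pool.Agent.Lead.BCB.Sec
import Pool.Agent.Lead.BCB.OpMul

/-!
Phase B (lead): the concrete facts on `L²(ℝ; H)`: the unitary `(Q f)(s) = U(-s) w_s U_s f(s)` attached to a
cocycle `w`, and: `π_σ(y)` commutes with `κ(N')` only if `y ∈ N`.
-/

set_option autoImplicit false

open MeasureTheory Filter Topology Complex
open scoped InnerProductSpace ENNReal

namespace Pool.Agent.Lead.BCB

open Pool.Agent.W662.CB Pool.Agent.H75.BC Pool.Agent.H75.BC.FB

noncomputable section

variable {H : Type} [NormedAddCommGroup H] [InnerProductSpace ℂ H] [CompleteSpace H]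

/-- the converse of the commutation of `π_σ(N)` with `κ(N')` -/
theorem conc_hW (N : VonNeumannAlgebra H) (U : ℝ → H →L[ℂ] H) (hU0 : U 0 = 1)
    (hUs : ∀ t : ℝ, star (U t) = U (-t)) (hUc : ∀ v : H, Continuous fun t : ℝ => U t v)
    (hU1 : ∀ t : ℝ, ‖U t‖ ≤ 1)
    (κ : (H →L[ℂ] H) →⋆ₐ[ℂ] (LR H →L[ℂ] LR H)) (hκ : ∀ y, IsConst y (κ y)) (W : LR H →L[ℂ] LR H)
    (hW : ∀ (y : H →L[ℂ] H) (f : LR H), (W * κ y * star W) f =ᵐ[volume] fun s => sgm U (-s) y (f s)) :
    ∀ y : H →L[ℂ] H, (∀ y' : H →L[ℂ] H, y' ∈ N.commutant →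
      (W * κ y * star W) * κ y' = κ y' * (W * κ y * star W)) → y ∈ N := by
  intro y hy
  rw [← VonNeumannAlgebra.commutant_commutant N, VonNeumannAlgebra.mem_commutant_iff]
  intro y' hy'
  ext v
  -- the two continuous functions `s ↦ y' σ_{-s}(y) v`, `s ↦ σ_{-s}(y) y' v`
  have hcs : ∀ v : H, Continuous fun s : ℝ => sgm U (-s) y v := by
    intro v
    have h1 : Continuous fun s : ℝ => y (star (U (-s)) v) := by
      have h2 : (fun s : ℝ => y (star (U (-s)) v)) = fun s : ℝ => y (U s v) := by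
        funext s
        rw [hUs, neg_neg]
      rw [h2]
      exact y.continuous.comp (hUc v)
    have h3 := (om_cont hUc hU1).comp (continuous_neg.prodMk h1)
    exact h3
  have hae : ∀ᵐ s : ℝ ∂(volume.restrict (Set.Icc (-1 : ℝ) 1)),
      sgm U (-s) y (y' v) = y' (sgm U (-s) y v) := by
    have hfin : (volume : Measure ℝ) (Set.Icc (-1 : ℝ) 1) ≠ ⊤ := by
      rw [Real.volume_Icc]; exact ENNReal.ofReal_ne_top
    set f : LR H := indicatorConstLp 2 (measurableSet_Icc : MeasurableSet (Set.Icc (-1 : ℝ) 1)) hfin v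
      with hf
    have h1 := hW y (κ y' f)
    have h2 := hκ y' f
    have h3 := hκ y' ((W * κ y * star W) f)
    have h4 := hW y f
    have h5 : (W * κ y * star W) (κ y' f) = κ y' ((W * κ y * star W) f) := by
      rw [← mul_ap, hy y' hy', mul_ap]
    have h6 : (f : ℝ → H) =ᵐ[volume] Set.indicator (Set.Icc (-1 : ℝ) 1) fun _ => v :=
      indicatorConstLp_coeFn
    rw [ae_restrict_iff' measurableSet_Icc]
    filter_upwards [h1, h2, h3, h4, h6] with s g1 g2 g3 g4 g6 hs
    rw [h5, g3, g4, g2, g6, Set.indicator_of_mem hs] at g1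
    exact g1.symm
  have hc1 : Continuous fun s : ℝ => sgm U (-s) y (y' v) := hcs (y' v)
  have hc2 : Continuous fun s : ℝ => y' (sgm U (-s) y v) := y'.continuous.comp (hcs v)
  have heq : Set.EqOn (fun s : ℝ => sgm U (-s) y (y' v)) (fun s : ℝ => y' (sgm U (-s) y v))
      (Set.Icc (-1 : ℝ) 1) := by
    refine MeasureTheory.Measure.eqOn_of_ae_eq hae hc1.continuousOn hc2.continuousOn ?_
    rw [interior_Icc, closure_Ioo (by norm_num)]
  have h0 := heq (show (0 : ℝ) ∈ Set.Icc (-1 : ℝ) 1 by constructor <;> norm_num)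
  have hs0 : ∀ u : H, sgm U (-(0 : ℝ)) y u = y u := by
    intro u
    unfold sgm
    rw [neg_zero, hU0]
    simp
  simp only [hs0] at h0
  exact h0.symm

/-- the unitary attached to a cocycle -/
theorem conc_Q (N : VonNeumannAlgebra H) (U w : ℝ → H →L[ℂ] H) (hU0 : U 0 = 1)
    (hUa : ∀ s t : ℝ, U (s + t) = U s * U t)
    (hUs : ∀ t : ℝ, star (U t) = U (-t)) (hUc : ∀ v : H, Continuous fun t : ℝ => U t v)
    (hUn : ∀ (t : ℝ) (x : H →L[ℂ] H), x ∈ N → U t * x * U (-t) ∈ N)
    (hwN : ∀ t : ℝ, w t ∈ N) (hw1 : ∀ t : ℝ, star (w t) * w t = 1)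
    (hwc : ∀ v : H, Continuous fun t : ℝ => w t v)
    (hw : ∀ s t : ℝ, w (s + t) = w s * sgm U s (w t))
    (κ : (H →L[ℂ] H) →⋆ₐ[ℂ] (LR H →L[ℂ] LR H)) (e : ℝ → LR H →L[ℂ] LR H)
    (hκ : ∀ y, IsConst y (κ y)) (he : ∀ t, IsShift t (e (-t))) :
    ∃ Q : LR H →L[ℂ] LR H, (∀ f : LR H, ‖Q f‖ = ‖f‖) ∧
      (∀ t : ℝ, (e t * κ (U t)) * Q = Q * (κ (w t * U t) * e t)) ∧
      ∀ y' : H →L[ℂ] H, y' ∈ N.commutant → Q * κ y' = κ y' * Q := by
  have hUU : ∀ t : ℝ, U (-t) * U t = 1 := fun t => by rw [← hUa, neg_add_cancel, hU0]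
  have hUn1 : ∀ (t : ℝ) (v : H), ‖U t v‖ = ‖v‖ := fun t v =>
    norm_le_one_of_un (by rw [hUs]; exact hUU t) v
  have hwn1 : ∀ (t : ℝ) (v : H), ‖w t v‖ = ‖v‖ := fun t v => norm_le_one_of_un (hw1 t) v
  have hle : ∀ {T : H →L[ℂ] H}, (∀ v, ‖T v‖ = ‖v‖) → ‖T‖ ≤ 1 := fun {T} h =>
    T.opNorm_le_bound zero_le_one fun v => by rw [h, one_mul]
  set g : ℝ → H →L[ℂ] H := fun s => U (-s) * (w s * U s) with hg
  have hgn : ∀ (s : ℝ) (v : H), ‖g s v‖ = ‖v‖ := fun s v => by
    show ‖U (-s) (w s (U s v))‖ = ‖v‖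
    rw [hUn1, hwn1, hUn1]
  have hgc : ∀ v : H, Continuous fun s : ℝ => g s v := by
    intro v
    have h1 : Continuous fun s : ℝ => w s (U s v) :=
      (om_cont hwc (fun s => hle (hwn1 s))).comp (continuous_id.prodMk (hUc v))
    exact (om_cont hUc (fun s => hle (hUn1 s))).comp (continuous_neg.prodMk h1)
  obtain ⟨Q, hQ⟩ := exists_om hgc (fun s => hle (hgn s))
  have hgN : ∀ s : ℝ, g s ∈ N := by
    intro s
    have h1 := hUn (-s) (w s) (hwN s)
    rw [neg_neg] at h1
    rw [hg]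
    simp only
    rwa [← mul_assoc]
  refine ⟨Q, om_norm hQ hgn, fun t => ?_, fun y' hy' => ?_⟩
  · refine ContinuousLinearMap.ext fun f => Lp.ext ?_
    -- left-hand side
    have he' : ∀ (t : ℝ) (f : LR H), (e t f : ℝ → H) =ᵐ[volume] fun s => f (s + t) := by
      intro t f
      have h1 := he (-t) f
      rw [neg_neg] at h1
      filter_upwards [h1] with s hs
      rw [hs, sub_neg_eq_add]
    have hqm : MeasureTheory.Measure.QuasiMeasurePreserving (fun s : ℝ => s + t) volume volume :=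
      (measurePreserving_add_right volume t).quasiMeasurePreserving
    have h1 : ((e t * κ (U t)) * Q) f = e t (κ (U t) (Q f)) := rfl
    have h2 : (Q * (κ (w t * U t) * e t)) f = Q (κ (w t * U t) (e t f)) := rfl
    rw [h1, h2]
    have h3 := he' t (κ (U t) (Q f))
    have h4 := hqm.ae_eq_comp (hκ (U t) (Q f))
    have h5 := hqm.ae_eq_comp (hQ f)
    have h6 := hQ (κ (w t * U t) (e t f))
    have h7 := hκ (w t * U t) (e t f)
    have h8 := he' t f
    filter_upwards [h3, h4, h5, h6, h7, h8] with s g3 g4 g5 g6 g7 g8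
    simp only [Function.comp_apply] at g4 g5
    rw [g3, g4, g5, g6, g7, g8]
    have h9 : U t * g (s + t) = g s * (w t * U t) := by
      rw [hg]
      simp only
      have h10 : U t * U (-(s + t)) = U (-s) := by
        rw [← hUa]; congr 1; ring
      have h11 : w (s + t) * U (s + t) = w s * U s * (w t * U t) := by
        rw [hw, hUa]
        unfold sgm
        rw [hUs]
        calc w s * (U s * w t * U (-s)) * (U s * U t)
            = w s * U s * w t * (U (-s) * U s) * U t := by simp only [mul_assoc]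
          _ = _ := by rw [hUU, mul_one]; simp only [mul_assoc]
      calc U t * (U (-(s + t)) * (w (s + t) * U (s + t)))
          = (U t * U (-(s + t))) * (w (s + t) * U (s + t)) := by simp only [mul_assoc]
        _ = _ := by rw [h10, h11]; simp only [mul_assoc]
    exact congrArg (fun X : H →L[ℂ] H => X (f (s + t))) h9
  · refine ContinuousLinearMap.ext fun f => Lp.ext ?_
    have h1 : (Q * κ y') f = Q (κ y' f) := rfl
    have h2 : (κ y' * Q) f = κ y' (Q f) := rfl
    rw [h1, h2]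
    filter_upwards [hQ (κ y' f), hκ y' f, hκ y' (Q f), hQ f] with s g1 g2 g3 g4
    rw [g1, g2, g3, g4]
    have h3 := (VonNeumannAlgebra.mem_commutant_iff.1 hy') _ (hgN s)
    exact congrArg (fun X : H →L[ℂ] H => X (f s)) h3

end

end Pool.Agent.Lead.BCB
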