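import Pool.Agent.Lead.BCB.Orbit

/-!
Phase B (lead): the centralizer `{κ(N'), V_t}'` is the core `A` (Digernes-Takesaki), by Fourier inversion along the
orbits of the dual flow.
-/

set_option autoImplicit false

open MeasureTheory Filter Topology Complex
open scoped InnerProductSpace ENNReal FourierTransform

namespace Pool.Agent.Lead.BCB

open Pool.Agent.W662.CB Pool.Agent.H75.BC Pool.Agent.H75.BC.FB

noncomputable section

variable {H : Type} [NormedAddCommGroup H] [InnerProductSpace ℂ H] [CompleteSpace H]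
  {K : Type} [NormedAddCommGroup K] [InnerProductSpace ℂ K] [CompleteSpace K]
  {M N : VonNeumannAlgebra H} {ξ : H}
  {U : ℝ → H →L[ℂ] H} {κ : (H →L[ℂ] H) →⋆ₐ[ℂ] (K →L[ℂ] K)} {e S : ℝ → K →L[ℂ] K}
  {W : K →L[ℂ] K} {J : ℝ → H →L[ℂ] K} {E : ℝ → ℂ → K →L[ℂ] K} {A : VonNeumannAlgebra K}

omit [CompleteSpace K] in
theorem ext_left {T T' : K →L[ℂ] K} (h : ∀ v w : K, ⟪T v, w⟫_ℂ = ⟪T' v, w⟫_ℂ) : T = T' :=
  ContinuousLinearMap.ext fun v => ext_inner_right ℂ fun w => h v w

/-- relations of the weak integral `G_t` -/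
structure GI (S : ℝ → K →L[ℂ] K) (Z G : K →L[ℂ] K) (t : ℝ) : Prop where
  eq : ∀ v w : K, ⟪G v, w⟫_ℂ = ∫ p : ℝ, ph t p * cof S Z v w p

/-- an operator that commutes with all `S_p T' = T' S_p` and with `Z` commutes with `G` -/
theorem G_comm {Z G : K →L[ℂ] K} {t : ℝ} (hG : GI S Z G t) {T : K →L[ℂ] K}
    (hT : ∀ p : ℝ, T * (S p * Z * S (-p)) = (S p * Z * S (-p)) * T) : T * G = G * T := by
  refine ext_left fun v w => ?_
  rw [mul_ap, mul_ap, ← ContinuousLinearMap.adjoint_inner_right T, hG.eq, hG.eq]
  congr 1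
  funext p
  congr 1
  unfold cof
  rw [ContinuousLinearMap.adjoint_inner_right]
  have h1 := congrArg (fun X : K →L[ℂ] K => X v) (hT p)
  simp only [mul_ap] at h1
  rw [h1]

theorem G_S (F : Frame U κ e S W J E) {Z G : K →L[ℂ] K} {t : ℝ} (hG : GI S Z G t) (q : ℝ) :
    G * S q = Complex.exp (2 * Real.pi * I * t * q) • (S q * G) := by
  refine ext_left fun v w => ?_
  rw [smul_apply, mul_ap, mul_ap, inner_smul_left,
    ← ContinuousLinearMap.adjoint_inner_right (S q), ← ContinuousLinearMap.star_eq_adjoint, F.S_star,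
    hG.eq, hG.eq]
  have h1 := integral_add_right_eq_self (μ := volume) (fun p : ℝ => ph t p * cof S Z (S q v) w p) q
  rw [← h1, ← integral_const_mul]
  congr 1
  funext p
  have h2 : ph t (p + q) = (starRingEnd ℂ) (Complex.exp (2 * Real.pi * I * t * q)) * ph t p := by
    unfold ph
    rw [← Complex.exp_conj, ← Complex.exp_add]
    congr 1
    simp only [map_mul, Complex.conj_ofReal, Complex.conj_I, map_ofNat]
    push_cast
    ring
  rw [h2, mul_assoc]
  congr 2
  unfold cof
  have h3 : S (-(p + q)) (S q v) = S (-p) v := by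
    rw [← mul_ap, ← F.S_add]
    congr 2
    ring
  rw [h3]
  have h4 : S (p + q) (Z (S (-p) v)) = S q (S p (Z (S (-p) v))) := by
    rw [← mul_ap (S q), ← F.S_add, add_comm q p]
  rw [h4, ← ContinuousLinearMap.adjoint_inner_right (S q), ← ContinuousLinearMap.star_eq_adjoint,
    F.S_star]

/-- box-supported elements of the centralizer belong to the core -/
theorem dt_box (D : CoreD M N ξ U κ e S W J E A)
    (hW : ∀ y : H →L[ℂ] H, (∀ y' : H →L[ℂ] H, y' ∈ N.commutant →
      (W * κ y * star W) * κ y' = κ y' * (W * κ y * star W)) → y ∈ N)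
    {a r : ℝ} (hr : 0 < r) {Z : K →L[ℂ] K} (hZ : bx S E a r * Z * bx S E a r = Z)
    (h1 : ∀ y' : H →L[ℂ] H, y' ∈ N.commutant → Z * κ y' = κ y' * Z)
    (h2 : ∀ t : ℝ, (e t * κ (U t)) * Z = Z * (e t * κ (U t))) : Z ∈ A := by
  have F := D.fr
  have hm := D.std.modular
  have hU : U 0 = 1 ∧ ∀ s t : ℝ, U (s + t) = U s * U t := ⟨hm.zero, hm.add⟩
  refine mem_of_comm D fun R hR => ?_
  -- `G_t ∈ A`
  have hGA : ∀ (t : ℝ) (G : K →L[ℂ] K), GI S Z G t → G ∈ A := by
    intro t G hG
    -- commutation with `κ(N')`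
    have g1 : ∀ y' : H →L[ℂ] H, y' ∈ N.commutant → κ y' * G = G * κ y' := by
      intro y' hy'
      refine G_comm hG fun p => ?_
      calc κ y' * (S p * Z * S (-p)) = (κ y' * S p) * Z * S (-p) := by simp only [mul_assoc]
        _ = S p * (κ y' * Z) * S (-p) := by rw [F.κ_S]; simp only [mul_assoc]
        _ = S p * Z * (κ y' * S (-p)) := by rw [← h1 y' hy']; simp only [mul_assoc]
        _ = _ := by rw [F.κ_S]; simp only [mul_assoc]
    -- commutation with `V_s`
    have hVS : ∀ s p : ℝ, (e s * κ (U s)) * S p =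
        Complex.exp (2 * Real.pi * I * s * p) • (S p * (e s * κ (U s))) := by
      intro s p
      calc (e s * κ (U s)) * S p = e s * (κ (U s) * S p) := mul_assoc _ _ _
        _ = (e s * S p) * κ (U s) := by rw [F.κ_S, mul_assoc]
        _ = _ := by rw [F.e_S, smul_mul_assoc, mul_assoc (S p)]
    have g2 : ∀ s : ℝ, (e s * κ (U s)) * G = G * (e s * κ (U s)) := by
      intro s
      refine G_comm hG fun p => ?_
      have h3 := hVS s p
      have h4 := hVS s (-p)
      calc (e s * κ (U s)) * (S p * Z * S (-p)) = ((e s * κ (U s)) * S p) * Z * S (-p) := by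
            simp only [mul_assoc]
        _ = Complex.exp (2 * Real.pi * I * s * p) • (S p * ((e s * κ (U s)) * Z) * S (-p)) := by
            rw [h3]; simp only [smul_mul_assoc, mul_assoc]
        _ = Complex.exp (2 * Real.pi * I * s * p) • (S p * Z * ((e s * κ (U s)) * S (-p))) := by
            rw [h2]; simp only [mul_assoc]
        _ = (Complex.exp (2 * Real.pi * I * s * p) * Complex.exp (2 * Real.pi * I * s * ((-p : ℝ) : ℂ))) •
              (S p * Z * (S (-p) * (e s * κ (U s)))) := by
            rw [h4, mul_smul_comm, smul_smul]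
        _ = (S p * Z * S (-p)) * (e s * κ (U s)) := by
            rw [← Complex.exp_add]
            have h5 : 2 * (Real.pi : ℂ) * I * s * p + 2 * Real.pi * I * s * ((-p : ℝ) : ℂ) = 0 := by
              push_cast; ring
            rw [h5, Complex.exp_zero, one_smul]
            simp only [mul_assoc]
    set X : K →L[ℂ] K := G * e (-t) with hX
    have x1 : ∀ q : ℝ, X * S q = S q * X := by
      intro q
      calc X * S q = G * (e (-t) * S q) := mul_assoc _ _ _
        _ = Complex.exp (2 * Real.pi * I * ((-t : ℝ) : ℂ) * q) • ((G * S q) * e (-t)) := by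
            rw [F.e_S, mul_smul_comm, ← mul_assoc G]
        _ = (Complex.exp (2 * Real.pi * I * ((-t : ℝ) : ℂ) * q) * Complex.exp (2 * Real.pi * I * t * q)) •
              (S q * G * e (-t)) := by rw [G_S F hG, smul_mul_assoc, smul_smul]
        _ = S q * X := by
            rw [← Complex.exp_add]
            have h5 : 2 * (Real.pi : ℂ) * I * ((-t : ℝ) : ℂ) * q + 2 * Real.pi * I * t * q = 0 := by
              push_cast; ring
            rw [h5, Complex.exp_zero, one_smul, mul_assoc]
    have x2 : ∀ s : ℝ, (e s * κ (U s)) * X = X * (e s * κ (U s)) := by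
      intro s
      have h6 : (e s * κ (U s)) * e (-t) = e (-t) * (e s * κ (U s)) := by
        calc (e s * κ (U s)) * e (-t) = e s * (κ (U s) * e (-t)) := mul_assoc _ _ _
          _ = (e s * e (-t)) * κ (U s) := by rw [F.κ_e, mul_assoc]
          _ = (e (-t) * e s) * κ (U s) := by rw [← F.e_add, ← F.e_add, add_comm]
          _ = _ := mul_assoc _ _ _
      calc (e s * κ (U s)) * X = ((e s * κ (U s)) * G) * e (-t) := (mul_assoc _ _ _).symm
        _ = G * ((e s * κ (U s)) * e (-t)) := by rw [g2, mul_assoc]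
        _ = X * (e s * κ (U s)) := by rw [h6, hX]; simp only [mul_assoc]
    have x3 : ∀ y' : H →L[ℂ] H, y' ∈ N.commutant → X * κ y' = κ y' * X := by
      intro y' hy'
      calc X * κ y' = G * (e (-t) * κ y') := mul_assoc _ _ _
        _ = (G * κ y') * e (-t) := by rw [← F.κ_e, mul_assoc]
        _ = κ y' * X := by rw [← g1 y' hy', hX, mul_assoc]
    -- `W* X W` is of the form `κ y`
    obtain ⟨y, hy⟩ := weyl F (T := star W * X * W)
      (fun p => by
        have h7 : S p * star W = star W * S p := by
          have h8 := congrArg star (F.W_S (-p))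
          rw [star_mul, star_mul, F.S_star, neg_neg] at h8
          exact h8
        calc star W * X * W * S p = star W * X * (W * S p) := mul_assoc _ _ _
          _ = star W * (X * S p) * W := by rw [F.W_S]; simp only [mul_assoc]
          _ = (star W * S p) * X * W := by rw [x1]; simp only [mul_assoc]
          _ = _ := by rw [← h7]; simp only [mul_assoc])
      (fun s => by
        have h8 := V_W F hU s
        have h9 : star W * (e s * κ (U s)) = e s * star W := by
          calc star W * (e s * κ (U s)) = star W * (e s * κ (U s)) * (W * star W) := by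
                rw [F.W_un2, mul_one]
            _ = star W * ((e s * κ (U s)) * W) * star W := by simp only [mul_assoc]
            _ = (star W * W) * e s * star W := by rw [h8]; simp only [mul_assoc]
            _ = _ := by rw [F.W_un1, one_mul]
        calc star W * X * W * e s = star W * X * (W * e s) := mul_assoc _ _ _
          _ = star W * (X * (e s * κ (U s))) * W := by rw [← h8]; simp only [mul_assoc]
          _ = (star W * (e s * κ (U s))) * X * W := by rw [← x2]; simp only [mul_assoc]
          _ = _ := by rw [h9]; simp only [mul_assoc])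
    have hXy : X = W * κ y * star W := by
      rw [← hy]
      calc X = (W * star W) * X * (W * star W) := by rw [F.W_un2, one_mul, mul_one]
        _ = _ := by simp only [mul_assoc]
    have hyN : y ∈ N := hW y fun y' hy' => by
      rw [← hXy]; exact x3 y' hy'
    have hXA : X ∈ A := by rw [hXy]; exact D.gen_W y hyN
    have hGX : G = X * e t := by
      rw [hX, mul_assoc, e_neg_mul F, mul_one]
    rw [hGX]
    exact mul_mem hXA (D.gen_e t)
  -- Fourier inversion
  refine ext_left fun v w => ?_
  set h : ℝ → ℂ := fun p => cof S Z v (star R w) p - cof S Z (R v) w p with hh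
  have hcont : Continuous h := (cof_cont F Z v (star R w)).sub (cof_cont F Z (R v) w)
  have hint : Integrable h := (cof_int F hr hZ v (star R w)).1.sub (cof_int F hr hZ (R v) w).1
  have hfour : 𝓕 h = fun _ => (0 : ℂ) := by
    funext t
    obtain ⟨G, hG⟩ := exists_G F hr hZ t
    have hGA' := hGA t G ⟨hG⟩
    have h3 := hR G hGA'
    rw [Real.fourier_real_eq_integral_exp_smul]
    have h4 : ∀ p : ℝ, Complex.exp (((-2 * Real.pi * p * t : ℝ) : ℂ) * I) • h p =
        ph t p * cof S Z v (star R w) p - ph t p * cof S Z (R v) w p := by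
      intro p
      rw [hh, smul_eq_mul]
      unfold ph
      have h5 : ((-2 * Real.pi * p * t : ℝ) : ℂ) * I = -(2 * Real.pi * I * t * p) := by
        push_cast; ring
      rw [h5]
      ring
    simp only [h4]
    rw [integral_sub (phcof_int F hr hZ t v (star R w)) (phcof_int F hr hZ t (R v) w), ← hG, ← hG,
      ContinuousLinearMap.star_eq_adjoint, ContinuousLinearMap.adjoint_inner_right, ← mul_ap, ← mul_ap,
      h3, sub_self]
  have hzero : h 0 = 0 := by
    have h5 := MeasureTheory.Integrable.fourierInv_fourier_eq (v := (0 : ℝ)) hint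
      (by rw [hfour]; exact integrable_zero _ _ _) hcont.continuousAt
    rw [← h5, hfour, Real.fourierInv_eq']
    simp
  have h6 : cof S Z v (star R w) 0 = cof S Z (R v) w 0 := sub_eq_zero.1 hzero
  unfold cof at h6
  rw [neg_zero, F.S_zero] at h6
  simp only [one_apply_eq_self] at h6
  rw [mul_ap, mul_ap, ← h6, ContinuousLinearMap.star_eq_adjoint,
    ContinuousLinearMap.adjoint_inner_right]

/-- Digernes-Takesaki: the centralizer is the core. -/
theorem dt (D : CoreD M N ξ U κ e S W J E A)
    (hW : ∀ y : H →L[ℂ] H, (∀ y' : H →L[ℂ] H, y' ∈ N.commutant →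
      (W * κ y * star W) * κ y' = κ y' * (W * κ y * star W)) → y ∈ N)
    {Z : K →L[ℂ] K}
    (h1 : ∀ y' : H →L[ℂ] H, y' ∈ N.commutant → Z * κ y' = κ y' * Z)
    (h2 : ∀ t : ℝ, (e t * κ (U t)) * Z = Z * (e t * κ (U t))) : Z ∈ A := by
  have F := D.fr
  refine mem_of_comm D fun R hR => ?_
  -- the compressions
  set P : ℝ → K →L[ℂ] K := fun L => bx S E (-L) (2 * L) with hP
  have hPA : ∀ L : ℝ, 0 < L → P L ∈ A := fun L hL => bx_mem D (by positivity) _
  have hPZ : ∀ L : ℝ, 0 < L → P L * Z * P L ∈ A := by
    intro L hL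
    have h2L : 0 < 2 * L := by positivity
    refine dt_box D hW h2L (a := -L) (r := 2 * L) ?_ ?_ ?_
    · calc bx S E (-L) (2 * L) * (P L * Z * P L) * bx S E (-L) (2 * L)
          = (bx S E (-L) (2 * L) * bx S E (-L) (2 * L)) * Z *
            (bx S E (-L) (2 * L) * bx S E (-L) (2 * L)) := by rw [hP]; simp only [mul_assoc]
        _ = _ := by rw [bx_idem F h2L]
    · intro y' hy'
      have h3 := κ_comm D (hPA L hL) hy'
      calc P L * Z * P L * κ y' = P L * Z * (P L * κ y') := mul_assoc _ _ _
        _ = P L * (Z * κ y') * P L := by rw [← h3]; simp only [mul_assoc]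
        _ = (P L * κ y') * Z * P L := by rw [h1 y' hy']; simp only [mul_assoc]
        _ = _ := by rw [← h3]; simp only [mul_assoc]
    · intro t
      have h3 := V_comm D (hPA L hL) t
      calc (e t * κ (U t)) * (P L * Z * P L) = ((e t * κ (U t)) * P L) * Z * P L := by
            simp only [mul_assoc]
        _ = P L * ((e t * κ (U t)) * Z) * P L := by rw [h3]; simp only [mul_assoc]
        _ = P L * Z * ((e t * κ (U t)) * P L) := by rw [h2]; simp only [mul_assoc]
        _ = _ := by rw [h3]; simp only [mul_assoc]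
  -- strong limits
  have hlim : ∀ u : K, Tendsto (fun n : ℕ => P (n + 1) u) atTop (𝓝 u) := fun u =>
    (F.exhaust u).comp (tendsto_atTop_add_const_right _ _ tendsto_natCast_atTop_atTop)
  have hPn : ∀ (n : ℕ) (x : K), ‖P (n + 1) x‖ ≤ ‖x‖ := by
    intro n x
    have hL : (0 : ℝ) < 2 * ((n : ℝ) + 1) := by positivity
    have h3 := bessel_proj ({0} : Finset ℕ) (fun _ => P (n + 1)) (fun _ _ => bx_sa F hL _)
      (fun _ _ => bx_idem F hL _) (fun i hi j hj hij => by
        rw [Finset.mem_singleton] at hi hj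
        exact absurd (hi.trans hj.symm) hij) x
    rw [Finset.sum_singleton] at h3
    exact (sq_le_sq₀ (norm_nonneg _) (norm_nonneg _)).1 h3
  have hlimZ : ∀ u : K, Tendsto (fun n : ℕ => (P (n + 1) * Z * P (n + 1)) u) atTop (𝓝 (Z u)) := by
    intro u
    have h3 : Tendsto (fun n : ℕ => P (n + 1) (Z u)) atTop (𝓝 (Z u)) := hlim (Z u)
    have h4 : Tendsto (fun n : ℕ => P (n + 1) (Z (P (n + 1) u - u))) atTop (𝓝 0) := by
      have h5 : Tendsto (fun n : ℕ => Z (P (n + 1) u - u)) atTop (𝓝 0) := by
        have h6 := (Z.continuous.tendsto _).comp ((hlim u).sub_const u)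
        rw [sub_self, map_zero] at h6
        exact h6
      rw [tendsto_zero_iff_norm_tendsto_zero] at h5 ⊢
      exact squeeze_zero (fun _ => norm_nonneg _) (fun n => hPn n _) h5
    have h7 := h3.add h4
    rw [add_zero] at h7
    refine h7.congr fun n => ?_
    rw [← map_add, ← map_add, add_sub_cancel]
    rfl
  ext u
  have h3 : Tendsto (fun n : ℕ => (R * (P (n + 1) * Z * P (n + 1))) u) atTop (𝓝 ((R * Z) u)) :=
    (R.continuous.tendsto _).comp (hlimZ u)
  have h4 : Tendsto (fun n : ℕ => ((P (n + 1) * Z * P (n + 1)) * R) u) atTop (𝓝 ((Z * R) u)) :=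
    hlimZ (R u)
  refine tendsto_nhds_unique h3 (h4.congr fun n => ?_)
  rw [hR _ (hPZ (n + 1) (by positivity))]

end

end Pool.Agent.Lead.BCB
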