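import Mathlib

/-!
Relative bicentralizer flow versus relative flow of weights (MP_357da3_an): the definitions used in the final
statement.  A von Neumann algebra `M` acts on a Hilbert space `H` with a cyclic and separating unit vector `ξ`;
`N ⊆ M` is a von Neumann subalgebra with a conditional expectation `E : M → N` that preserves the vector state
`φ(x) = ⟨ξ, x ξ⟩`.  (Every inclusion with expectation `E_N` and every faithful normal state `φ` of `N` is of this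
form: represent the faithful normal state `φ ∘ E_N` of `M` by a cyclic and separating vector.)
-/

set_option autoImplicit false

open MeasureTheory Filter Topology Complex
open scoped InnerProductSpace

namespace Pool.Agent.Lead.BicFlow

noncomputable section

variable {H : Type} [NormedAddCommGroup H] [InnerProductSpace ℂ H] [CompleteSpace H]

/-- The vector state `φ(x) = ⟨ξ, x ξ⟩`. -/
def vst (ξ : H) (x : H →L[ℂ] H) : ℂ := ⟪ξ, x ξ⟫_ℂ

/-- `ξ` is cyclic for `M`. -/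
def IsCyclic (M : VonNeumannAlgebra H) (ξ : H) : Prop :=
  Dense {v : H | ∃ x : H →L[ℂ] H, x ∈ M ∧ x ξ = v}

/-- `ξ` is separating for `M`. -/
def IsSeparating (M : VonNeumannAlgebra H) (ξ : H) : Prop :=
  ∀ x : H →L[ℂ] H, x ∈ M → x ξ = 0 → x = 0

/-- `σ_t(x) = U_t x U_t^*`. -/
def sgm (U : ℝ → H →L[ℂ] H) (t : ℝ) (x : H →L[ℂ] H) : H →L[ℂ] H := U t * x * star (U t)

/-- `t ↦ σ_t = Ad U_t` is the modular automorphism group of the vector state `φ = ω_ξ` on `M`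
(`U_t = Δ^{it}`): `U` is a strongly continuous one-parameter group of unitaries fixing `ξ`,
`σ_t` leaves `M` invariant and `φ` satisfies the modular (KMS) condition. -/
structure IsModular (M : VonNeumannAlgebra H) (ξ : H) (U : ℝ → H →L[ℂ] H) : Prop where
  zero : U 0 = 1
  add : ∀ s t : ℝ, U (s + t) = U s * U t
  star_eq : ∀ t : ℝ, star (U t) = U (-t)
  cont : ∀ v : H, Continuous fun t : ℝ => U t v
  fix : ∀ t : ℝ, U t ξ = ξ
  mem : ∀ (t : ℝ) (x : H →L[ℂ] H), x ∈ M → sgm U t x ∈ M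
  kms : ∀ a b : H →L[ℂ] H, a ∈ M → b ∈ M → ∃ F : ℂ → ℂ,
    ContinuousOn F {z : ℂ | 0 ≤ z.im ∧ z.im ≤ 1} ∧
    DifferentiableOn ℂ F {z : ℂ | 0 < z.im ∧ z.im < 1} ∧
    (∃ C : ℝ, ∀ z : ℂ, 0 ≤ z.im → z.im ≤ 1 → ‖F z‖ ≤ C) ∧
    ∀ t : ℝ, F t = vst ξ (sgm U t a * b) ∧ F (t + I) = vst ξ (b * sgm U t a)

/-- `E` is a conditional expectation of `M` onto `N`. -/
structure IsCondExp (M N : VonNeumannAlgebra H) (E : (H →L[ℂ] H) → (H →L[ℂ] H)) : Prop where
  mem : ∀ x : H →L[ℂ] H, x ∈ M → E x ∈ N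
  proj : ∀ x : H →L[ℂ] H, x ∈ N → E x = x
  add : ∀ x y : H →L[ℂ] H, x ∈ M → y ∈ M → E (x + y) = E x + E y
  smul : ∀ (c : ℂ) (x : H →L[ℂ] H), x ∈ M → E (c • x) = c • E x
  star_eq : ∀ x : H →L[ℂ] H, x ∈ M → E (star x) = star (E x)
  pos : ∀ x : H →L[ℂ] H, x ∈ M → 0 ≤ x → 0 ≤ E x
  left : ∀ a x : H →L[ℂ] H, a ∈ N → x ∈ M → E (a * x) = a * E x
  right : ∀ a x : H →L[ℂ] H, a ∈ N → x ∈ M → E (x * a) = E x * a

/-- The standing data: `ξ` is a cyclic and separating unit vector for `M`, `U` is the modular group of the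
state `φ = ω_ξ` of `M`, and `E` is a conditional expectation of `M` onto the von Neumann subalgebra `N` with
`φ ∘ E = φ`. -/
structure IsData (M N : VonNeumannAlgebra H) (ξ : H) (U : ℝ → H →L[ℂ] H)
    (E : (H →L[ℂ] H) → (H →L[ℂ] H)) : Prop where
  le : ∀ x : H →L[ℂ] H, x ∈ N → x ∈ M
  unit : ‖ξ‖ = 1
  cyclic : IsCyclic M ξ
  sep : IsSeparating M ξ
  modular : IsModular M ξ U
  condExp : IsCondExp M N E
  invariant : ∀ x : H →L[ℂ] H, x ∈ M → vst ξ (E x) = vst ξ x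

/-! ### Type III₁ -/

/-- `A` is a factor: its centre consists of the scalars. -/
def IsFactor {K : Type} [NormedAddCommGroup K] [InnerProductSpace ℂ K] [CompleteSpace K]
    (A : VonNeumannAlgebra K) : Prop :=
  ∀ Z : K →L[ℂ] K, Z ∈ A → (∀ S : K →L[ℂ] K, S ∈ A → S * Z = Z * S) → ∃ c : ℂ, Z = c • 1

/-- `L²(ℝ; H)`. -/
abbrev LR (H : Type) [NormedAddCommGroup H] [InnerProductSpace ℂ H] [CompleteSpace H] : Type :=
  Lp H 2 (volume : Measure ℝ)

/-- The generators of the continuous core: `(π_σ(x) f)(s) = σ_{-s}(x) f(s)` for `x ∈ N`, and the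
translations `(λ(t) f)(s) = f(s - t)`. -/
def coreGen (N : VonNeumannAlgebra H) (U : ℝ → H →L[ℂ] H) : Set (LR H →L[ℂ] LR H) :=
  {T | ∃ x : H →L[ℂ] H, x ∈ N ∧
    ∀ f : LR H, (T f : ℝ → H) =ᵐ[volume] fun s => sgm U (-s) x (f s)} ∪
  {T | ∃ t : ℝ, ∀ f : LR H, (T f : ℝ → H) =ᵐ[volume] fun s => f (s - t)}

/-- The von Neumann algebra generated by a set of operators: the double commutant of `S ∪ S^*`. -/
def vnGen {K : Type} [NormedAddCommGroup K] [InnerProductSpace ℂ K] [CompleteSpace K]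
    (S : Set (K →L[ℂ] K)) : VonNeumannAlgebra K where
  __ := StarSubalgebra.centralizer ℂ ((StarSubalgebra.centralizer ℂ S : Set (K →L[ℂ] K)))
  centralizer_centralizer' := Set.centralizer_centralizer_centralizer _

/-- The continuous core `c(N) = N ⋊_σ ℝ` on `L²(ℝ; H)`, the crossed product by the modular group of `φ|_N`
(which is the restriction of the modular group of `φ = φ ∘ E`). -/
def core (N : VonNeumannAlgebra H) (U : ℝ → H →L[ℂ] H) : VonNeumannAlgebra (LR H) :=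
  vnGen (coreGen N U)

/-- `N` is a factor of type III₁: `N` and its continuous core are factors. -/
def IsTypeIIIOne (N : VonNeumannAlgebra H) (U : ℝ → H →L[ℂ] H) : Prop :=
  IsFactor N ∧ IsFactor (core N U)

/-! ### The relative bicentralizer -/

/-- `‖a φ - c φ a‖`, the norm of a functional on `N`, where `(a φ)(x) = φ(x a)`, `(φ a)(x) = φ(a x)`. -/
def fnorm (N : VonNeumannAlgebra H) (ξ : H) (c : ℝ) (a : H →L[ℂ] H) : ℝ :=
  sSup {r : ℝ | ∃ x : H →L[ℂ] H, x ∈ N ∧ ‖x‖ ≤ 1 ∧ r = ‖vst ξ (x * a) - (c : ℂ) * vst ξ (a * x)‖}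

/-- Bounded sequences in `N` with `‖a_n φ - c φ a_n‖ → 0`. For `c = 1` this is the asymptotic centralizer
`AC(N, φ)`. -/
def IsAC (N : VonNeumannAlgebra H) (ξ : H) (c : ℝ) (a : ℕ → H →L[ℂ] H) : Prop :=
  (∀ n, a n ∈ N) ∧ (∃ C : ℝ, ∀ n, ‖a n‖ ≤ C) ∧ Tendsto (fun n => fnorm N ξ c (a n)) atTop (𝓝 0)

/-- The relative bicentralizer `B(N ⊂ M, φ)`. -/
def Bic (N M : VonNeumannAlgebra H) (ξ : H) : Set (H →L[ℂ] H) :=
  {x | x ∈ M ∧ ∀ a : ℕ → H →L[ℂ] H, IsAC N ξ 1 a →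
    ∀ v : H, Tendsto (fun n => (x * a n - a n * x) v) atTop (𝓝 0)}

/-- `β` is the relative bicentralizer flow: a flow of `ℝ₊*` on `B(N ⊂ M, φ)` by automorphisms such that
`‖a_n φ - l φ a_n‖ → 0` implies `a_n x - β_l(x) a_n → 0` *-strongly. -/
structure IsBicFlow (N M : VonNeumannAlgebra H) (ξ : H) (β : ℝ → (H →L[ℂ] H) → (H →L[ℂ] H)) : Prop where
  mem : ∀ (l : ℝ) (x : H →L[ℂ] H), 0 < l → x ∈ Bic N M ξ → β l x ∈ Bic N M ξ
  one : ∀ x : H →L[ℂ] H, x ∈ Bic N M ξ → β 1 x = x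
  mul : ∀ (l m : ℝ) (x : H →L[ℂ] H), 0 < l → 0 < m → x ∈ Bic N M ξ → β (l * m) x = β l (β m x)
  map_add : ∀ (l : ℝ) (x y : H →L[ℂ] H), 0 < l → x ∈ Bic N M ξ → y ∈ Bic N M ξ →
    β l (x + y) = β l x + β l y
  map_smul : ∀ (l : ℝ) (c : ℂ) (x : H →L[ℂ] H), 0 < l → x ∈ Bic N M ξ → β l (c • x) = c • β l x
  map_mul : ∀ (l : ℝ) (x y : H →L[ℂ] H), 0 < l → x ∈ Bic N M ξ → y ∈ Bic N M ξ →
    β l (x * y) = β l x * β l y
  map_star : ∀ (l : ℝ) (x : H →L[ℂ] H), 0 < l → x ∈ Bic N M ξ → β l (star x) = star (β l x)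
  cont : ∀ (x : H →L[ℂ] H) (v : H), x ∈ Bic N M ξ → ContinuousOn (fun l => β l x v) (Set.Ioi 0)
  asym : ∀ (l : ℝ) (x : H →L[ℂ] H) (a : ℕ → H →L[ℂ] H), 0 < l → x ∈ Bic N M ξ → IsAC N ξ l a →
    ∀ v : H, Tendsto (fun n => (a n * x - β l x * a n) v) atTop (𝓝 0) ∧
      Tendsto (fun n => star (a n * x - β l x * a n) v) atTop (𝓝 0)

/-! ### Weights on `N`, and the relative flow of weights

By Connes' theorem the faithful normal semifinite weights `ψ` on `N` correspond to their cocycles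
`w_t = (Dψ : Dφ)_t`, the strongly continuous maps `w` from `ℝ` to the unitaries of `N` with
`w_{s+t} = w_s σ_s(w_t)`.  The modular group of `ψ` is `Ad w_t ∘ σ_t`, the cocycle of `u ψ u^*` is
`u w_t σ_t(u^*)`, and that of `l ψ` is `l^{it} w_t`. -/

/-- `w_t = (Dψ : Dφ)_t` for a faithful normal semifinite weight `ψ` on `N`. -/
structure IsWeight (N : VonNeumannAlgebra H) (U w : ℝ → H →L[ℂ] H) : Prop where
  mem : ∀ t : ℝ, w t ∈ N
  un1 : ∀ t : ℝ, star (w t) * w t = 1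
  un2 : ∀ t : ℝ, w t * star (w t) = 1
  cont : ∀ v : H, Continuous fun t : ℝ => w t v
  cocycle : ∀ s t : ℝ, w (s + t) = w s * sgm U s (w t)

/-- The centralizer `N_ψ`. -/
def Cent (N : VonNeumannAlgebra H) (U w : ℝ → H →L[ℂ] H) : Set (H →L[ℂ] H) :=
  {x | x ∈ N ∧ ∀ t : ℝ, w t * sgm U t x * star (w t) = x}

/-- `u` is a unitary of `N` with `u ψ u^* = l ψ`. -/
def Scales (N : VonNeumannAlgebra H) (U w : ℝ → H →L[ℂ] H) (l : ℝ) (u : H →L[ℂ] H) : Prop :=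
  u ∈ N ∧ star u * u = 1 ∧ u * star u = 1 ∧
    ∀ t : ℝ, u * w t * sgm U t (star u) = Complex.exp (I * t * Real.log l) • w t

/-- `ψ` is a dominant weight on `N` (Connes-Takesaki): `N_ψ` is properly infinite (it contains two isometries
with orthogonal ranges) and `l ψ` is equivalent to `ψ` for every `l > 0`. -/
structure IsDominant (N : VonNeumannAlgebra H) (U w : ℝ → H →L[ℂ] H) : Prop where
  weight : IsWeight N U w
  inf : ∃ a b : H →L[ℂ] H, a ∈ Cent N U w ∧ b ∈ Cent N U w ∧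
    star a * a = 1 ∧ star b * b = 1 ∧ star a * b = 0
  scale : ∀ l : ℝ, 0 < l → ∃ u : H →L[ℂ] H, Scales N U w l u

/-- The relative commutant `(N_ψ)' ∩ M`. -/
def RelComm (N M : VonNeumannAlgebra H) (U w : ℝ → H →L[ℂ] H) : Set (H →L[ℂ] H) :=
  {y | y ∈ M ∧ ∀ z : H →L[ℂ] H, z ∈ Cent N U w → z * y = y * z}

/-- `π` is a normal `*`-isomorphism from `B` onto `C` (two von Neumann algebras, given as sets). -/
structure IsNormalIso (B C : Set (H →L[ℂ] H)) (π : (H →L[ℂ] H) → (H →L[ℂ] H)) : Prop where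
  maps : ∀ x : H →L[ℂ] H, x ∈ B → π x ∈ C
  inj : ∀ x y : H →L[ℂ] H, x ∈ B → y ∈ B → π x = π y → x = y
  surj : ∀ y : H →L[ℂ] H, y ∈ C → ∃ x : H →L[ℂ] H, x ∈ B ∧ π x = y
  map_one : π 1 = 1
  map_add : ∀ x y : H →L[ℂ] H, x ∈ B → y ∈ B → π (x + y) = π x + π y
  map_smul : ∀ (c : ℂ) (x : H →L[ℂ] H), x ∈ B → π (c • x) = c • π x
  map_mul : ∀ x y : H →L[ℂ] H, x ∈ B → y ∈ B → π (x * y) = π x * π y
  map_star : ∀ x : H →L[ℂ] H, x ∈ B → π (star x) = star (π x)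
  normal : ∀ (ι : Type) (l : Filter ι) (f : ι → H →L[ℂ] H) (x : H →L[ℂ] H) (C : ℝ),
    (∀ i, f i ∈ B ∧ ‖f i‖ ≤ C) → x ∈ B → (∀ v : H, Tendsto (fun i => f i v) l (𝓝 (x v))) →
    ∀ v : H, Tendsto (fun i => π (f i) v) l (𝓝 (π x v))

end

end Pool.Agent.Lead.BicFlow
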