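import Pool.Agent.Lead.BCB.DT
import Pool.Agent.Lead.BCB.FDefs
import Pool.Agent.H75.BC.G.Iso
import Pool.Agent.H75.L.W766.CB.A8b

/-!
Phase B (lead): transport of the model theorem to an actual dominant weight of `N` by a unitary intertwiner.
-/

set_option autoImplicit false

open MeasureTheory Filter Topology Complex
open scoped InnerProductSpace ENNReal

namespace Pool.Agent.Lead.BCB

open Pool.Agent.W662.CB Pool.Agent.H75.BC Pool.Agent.H75.BC.FB

noncomputable section

variable {H : Type} [NormedAddCommGroup H] [InnerProductSpace ℂ H] [CompleteSpace H]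
  {K : Type} [NormedAddCommGroup K] [InnerProductSpace ℂ K] [CompleteSpace K]

/-- `V* X V` -/
def cj (V : H →L[ℂ] K) (X : K →L[ℂ] K) : H →L[ℂ] H := (ContinuousLinearMap.adjoint V) ∘L X ∘L V

/-- `V y V*` -/
def cj' (V : H →L[ℂ] K) (y : H →L[ℂ] H) : K →L[ℂ] K := V ∘L y ∘L (ContinuousLinearMap.adjoint V)

section

variable {V : H →L[ℂ] K}

theorem cj_apply (X : K →L[ℂ] K) (v : H) : cj V X v = ContinuousLinearMap.adjoint V (X (V v)) := rfl

theorem cj'_apply (y : H →L[ℂ] H) (v : K) : cj' V y v = V (y (ContinuousLinearMap.adjoint V v)) := rfl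

theorem cj_add (X Y : K →L[ℂ] K) : cj V (X + Y) = cj V X + cj V Y := by
  ext v
  simp [cj_apply]

theorem cj_smul (c : ℂ) (X : K →L[ℂ] K) : cj V (c • X) = c • cj V X := by
  ext v
  simp [cj_apply]

theorem cj_star (X : K →L[ℂ] K) : cj V (star X) = star (cj V X) := by
  refine ContinuousLinearMap.ext fun v => ext_inner_right ℂ fun w => ?_
  rw [ContinuousLinearMap.star_eq_adjoint (cj V X), ContinuousLinearMap.adjoint_inner_left, cj_apply,
    cj_apply, ContinuousLinearMap.adjoint_inner_left, ContinuousLinearMap.adjoint_inner_right,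
    ContinuousLinearMap.star_eq_adjoint, ContinuousLinearMap.adjoint_inner_left]

theorem cj'_star (y : H →L[ℂ] H) : cj' V (star y) = star (cj' V y) := by
  refine ContinuousLinearMap.ext fun v => ext_inner_right ℂ fun w => ?_
  rw [ContinuousLinearMap.star_eq_adjoint (cj' V y), ContinuousLinearMap.adjoint_inner_left, cj'_apply,
    cj'_apply, ← ContinuousLinearMap.adjoint_inner_right V, ← ContinuousLinearMap.adjoint_inner_left V,
    ContinuousLinearMap.star_eq_adjoint, ContinuousLinearMap.adjoint_inner_left]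

variable (h1 : ∀ v : H, ContinuousLinearMap.adjoint V (V v) = v)
  (h2 : ∀ w : K, V (ContinuousLinearMap.adjoint V w) = w)

include h2 in
theorem cj_mul (X Y : K →L[ℂ] K) : cj V (X * Y) = cj V X * cj V Y := by
  ext v
  show ContinuousLinearMap.adjoint V (X (Y (V v))) =
    ContinuousLinearMap.adjoint V (X (V (ContinuousLinearMap.adjoint V (Y (V v)))))
  rw [h2]

include h1 in
theorem cj'_mul (x y : H →L[ℂ] H) : cj' V (x * y) = cj' V x * cj' V y := by
  ext v
  show V (x (y (ContinuousLinearMap.adjoint V v))) =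
    V (x (ContinuousLinearMap.adjoint V (V (y (ContinuousLinearMap.adjoint V v)))))
  rw [h1]

include h1 in
theorem cj_one : cj V 1 = 1 := by
  ext v
  exact h1 v

include h2 in
theorem cj'_one : cj' V 1 = 1 := by
  ext v
  exact h2 v

include h1 in
theorem cj_cj' (y : H →L[ℂ] H) : cj V (cj' V y) = y := by
  ext v
  show ContinuousLinearMap.adjoint V (V (y (ContinuousLinearMap.adjoint V (V v)))) = y v
  rw [h1, h1]

include h2 in
theorem cj'_cj (X : K →L[ℂ] K) : cj' V (cj V X) = X := by
  ext v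
  show V (ContinuousLinearMap.adjoint V (X (V (ContinuousLinearMap.adjoint V v)))) = X v
  rw [h2, h2]

end

open Pool.Agent.Lead in
/-- `G_t = w_t U_t` implements the modular group of `ψ`: elements of the centralizer commute with `G_t` -/
theorem cent_comm {N : VonNeumannAlgebra H} {U w : ℝ → H →L[ℂ] H} (hU : ∀ t : ℝ, star (U t) * U t = 1)
    (hw : ∀ t : ℝ, star (w t) * w t = 1) {z : H →L[ℂ] H} (hz : z ∈ BicFlow.Cent N U w) (t : ℝ) :
    (w t * U t) * z = z * (w t * U t) := by
  have h1 := hz.2 t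
  unfold BicFlow.sgm at h1
  calc (w t * U t) * z = w t * (U t * z * (star (U t) * U t)) := by rw [hU, mul_one, mul_assoc]
    _ = w t * (U t * z * star (U t)) * (star (w t) * w t) * U t := by
        rw [hw, mul_one]; simp only [mul_assoc]
    _ = (w t * (U t * z * star (U t)) * star (w t)) * (w t * U t) := by simp only [mul_assoc]
    _ = z * (w t * U t) := by rw [h1]

open Pool.Agent.Lead in
theorem cent_of_comm {N : VonNeumannAlgebra H} {U w : ℝ → H →L[ℂ] H}
    (hU : ∀ t : ℝ, U t * star (U t) = 1)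
    (hw : ∀ t : ℝ, w t * star (w t) = 1) {z : H →L[ℂ] H} (hzN : z ∈ N)
    (hz : ∀ t : ℝ, (w t * U t) * z = z * (w t * U t)) : z ∈ BicFlow.Cent N U w := by
  refine ⟨hzN, fun t => ?_⟩
  unfold BicFlow.sgm
  calc w t * (U t * z * star (U t)) * star (w t) = ((w t * U t) * z) * star (U t) * star (w t) := by
        simp only [mul_assoc]
    _ = z * (w t * (U t * star (U t)) * star (w t)) := by rw [hz]; simp only [mul_assoc]
    _ = z := by rw [hU, mul_one, hw, mul_one]

open Pool.Agent.Lead in
/-- the transport theorem -/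
theorem transport {M N : VonNeumannAlgebra H} {ξ : H} {U w : ℝ → H →L[ℂ] H}
    {κ : (H →L[ℂ] H) →⋆ₐ[ℂ] (K →L[ℂ] K)} {e S : ℝ → K →L[ℂ] K}
    {W : K →L[ℂ] K} {J : ℝ → H →L[ℂ] K} {E : ℝ → ℂ → K →L[ℂ] K} {A : VonNeumannAlgebra K}
    {Ex : (H →L[ℂ] H) → (H →L[ℂ] H)}
    (D : CoreD M N ξ U κ e S W J E A)
    (hDT : ∀ Z : K →L[ℂ] K, (∀ y' : H →L[ℂ] H, y' ∈ N.commutant → Z * κ y' = κ y' * Z) →
      (∀ t : ℝ, (e t * κ (U t)) * Z = Z * (e t * κ (U t))) → Z ∈ A)
    (hC : G.CE M N ξ Ex) (hcyc : IsCyclic M ξ)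
    (hw : BicFlow.IsWeight N U w)
    {V : H →L[ℂ] K}
    (h1 : ∀ v : H, ContinuousLinearMap.adjoint V (V v) = v)
    (h2 : ∀ w : K, V (ContinuousLinearMap.adjoint V w) = w)
    (hVc : ∀ y' : H →L[ℂ] H, y' ∈ N.commutant → ∀ v : H, V (y' v) = κ y' (V v))
    (hVG : ∀ (t : ℝ) (v : H), V ((w t * U t) v) = (e t * κ (U t)) (V v))
    {β : ℝ → (H →L[ℂ] H) → (H →L[ℂ] H)} {π : (H →L[ℂ] H) → (K →L[ℂ] K)}
    (hπ : G.IsIso (Bic N M ξ) (RR M κ A) π)
    (hπβ : ∀ (l : ℝ) (x : H →L[ℂ] H), 0 < l → x ∈ Bic N M ξ →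
        π (β l x) = S (-(Real.log l / (2 * Real.pi))) * π x * S (Real.log l / (2 * Real.pi)))
    (hπP : ∀ P : H →L[ℂ] H, (∀ x : H →L[ℂ] H, x ∈ M → P (x ξ) = Ex x ξ) →
        ∀ x : H →L[ℂ] H, x ∈ Bic N M ξ → κ P * π x * κ P = vst ξ x • κ P) :
    BicFlow.IsNormalIso (Bic N M ξ) (BicFlow.RelComm N M U w) (fun x => cj V (π x)) ∧
    (∀ (l : ℝ) (u x : H →L[ℂ] H), 0 < l → BicFlow.Scales N U w l u → x ∈ Bic N M ξ →
      u * cj V (π x) * star u = cj V (π (β l x))) ∧
    ∀ x : H →L[ℂ] H, x ∈ Bic N M ξ → Ex (cj V (π x)) = vst ξ x • (1 : H →L[ℂ] H) := by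
  have F := D.fr
  have hm := D.std.modular
  have hU1 : ∀ t : ℝ, star (U t) * U t = 1 := fun t => by
    rw [hm.star_eq, ← hm.add, neg_add_cancel, hm.zero]
  have hU2 : ∀ t : ℝ, U t * star (U t) = 1 := fun t => by
    rw [hm.star_eq, ← hm.add, add_neg_cancel, hm.zero]
  -- `M' ⊆ N'`
  have hMN : ∀ y' : H →L[ℂ] H, y' ∈ M.commutant → y' ∈ N.commutant := fun y' hy' => by
    rw [VonNeumannAlgebra.mem_commutant_iff] at hy' ⊢
    exact fun b hb => hy' b (D.std.le b hb)
  -- adjoint relations
  have hVc' : ∀ y' : H →L[ℂ] H, y' ∈ N.commutant → ∀ w : K,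
      y' (ContinuousLinearMap.adjoint V w) = ContinuousLinearMap.adjoint V (κ y' w) := by
    intro y' hy' w
    have h3 := hVc y' hy' (ContinuousLinearMap.adjoint V w)
    rw [h2] at h3
    rw [← h3, h1]
  have hVG' : ∀ (t : ℝ) (v : K), (w t * U t) (ContinuousLinearMap.adjoint V v) =
      ContinuousLinearMap.adjoint V ((e t * κ (U t)) v) := by
    intro t v
    have h3 := hVG t (ContinuousLinearMap.adjoint V v)
    rw [h2] at h3
    rw [← h3, h1]
  -- from operators on `H` to operators on `K`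
  have toA : ∀ z : H →L[ℂ] H, z ∈ N → (∀ t : ℝ, (w t * U t) * z = z * (w t * U t)) →
      cj' V z ∈ A := by
    intro z hzN hz
    refine hDT _ (fun y' hy' => ?_) fun t => ?_
    · ext v
      show V (z (ContinuousLinearMap.adjoint V (κ y' v))) = κ y' (V (z (ContinuousLinearMap.adjoint V v)))
      rw [← hVc' y' hy', ← hVc y' hy']
      congr 1
      have h3 := (VonNeumannAlgebra.mem_commutant_iff.1 hy') z hzN
      exact congrArg (fun X : H →L[ℂ] H => X (ContinuousLinearMap.adjoint V v)) h3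
    · ext v
      show (e t * κ (U t)) (V (z (ContinuousLinearMap.adjoint V v))) =
        V (z (ContinuousLinearMap.adjoint V ((e t * κ (U t)) v)))
      rw [← hVG', ← hVG]
      congr 1
      exact congrArg (fun X : H →L[ℂ] H => X (ContinuousLinearMap.adjoint V v)) (hz t)
  have fromA : ∀ Z : K →L[ℂ] K, Z ∈ A → cj V Z ∈ BicFlow.Cent N U w := by
    intro Z hZ
    refine cent_of_comm hU2 hw.un2 ?_ fun t => ?_
    · rw [← VonNeumannAlgebra.commutant_commutant N, VonNeumannAlgebra.mem_commutant_iff]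
      intro y' hy'
      ext v
      show y' (ContinuousLinearMap.adjoint V (Z (V v))) = ContinuousLinearMap.adjoint V (Z (V (y' v)))
      rw [hVc' y' hy', hVc y' hy']
      congr 1
      exact congrArg (fun X : K →L[ℂ] K => X (V v)) (κ_comm D hZ hy')
    · ext v
      show (w t * U t) (ContinuousLinearMap.adjoint V (Z (V v))) =
        ContinuousLinearMap.adjoint V (Z (V ((w t * U t) v)))
      rw [hVG', hVG]
      congr 1
      exact congrArg (fun X : K →L[ℂ] K => X (V v)) (V_comm D hZ t)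
  have hCN : ∀ z : H →L[ℂ] H, z ∈ BicFlow.Cent N U w → cj' V z ∈ A := fun z hz =>
    toA z hz.1 (cent_comm hU1 hw.un1 hz)
  have hmaps : ∀ X : K →L[ℂ] K, X ∈ RR M κ A → cj V X ∈ BicFlow.RelComm N M U w := by
    intro X hX
    refine ⟨?_, fun z hz => ?_⟩
    · rw [← VonNeumannAlgebra.commutant_commutant M, VonNeumannAlgebra.mem_commutant_iff]
      intro y' hy'
      ext v
      show y' (ContinuousLinearMap.adjoint V (X (V v))) = ContinuousLinearMap.adjoint V (X (V (y' v)))
      rw [hVc' y' (hMN y' hy'), hVc y' (hMN y' hy')]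
      congr 1
      exact (congrArg (fun Y : K →L[ℂ] K => Y (V v)) (hX.1 y' hy')).symm
    · have h3 := hX.2 _ (hCN z hz)
      have h4 := congrArg (cj V) h3
      rw [cj_mul h2, cj_mul h2, cj_cj' h1] at h4
      exact h4.symm
  -- the condition expectation
  obtain ⟨P, hPs, hP⟩ := Pool.Agent.W766.CB.a8b H M N ξ Ex D.std.le hcyc hC.exp hC.inv
  have hPN : P ∈ N.commutant := by
    rw [VonNeumannAlgebra.mem_commutant_iff]
    intro a ha
    refine ContinuousLinearMap.ext fun v => ?_
    have hcl : IsClosed {v : H | (a * P) v = (P * a) v} :=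
      isClosed_eq (a * P).continuous (P * a).continuous
    have hsub : {v : H | ∃ x : H →L[ℂ] H, x ∈ M ∧ x ξ = v} ⊆ {v : H | (a * P) v = (P * a) v} := by
      rintro _ ⟨x, hx, rfl⟩
      show a (P (x ξ)) = P (a (x ξ))
      have h3 : a (x ξ) = (a * x) ξ := rfl
      rw [h3, hP x hx, hP (a * x) (mul_mem (D.std.le a ha) hx), hC.exp.left a x ha hx]
      rfl
    exact (hcl.closure_subset_iff.2 hsub) (hcyc v)
  have hPξ : ∀ a : H →L[ℂ] H, a ∈ N → P (a ξ) = a ξ := fun a ha => by
    rw [hP a (D.std.le a ha), hC.exp.proj a ha]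
  refine ⟨⟨fun x hx => hmaps _ (hπ.maps x hx), fun x y hx hy h => ?_, fun y hy => ?_, ?_,
    fun x y hx hy => ?_, fun c x hx => ?_, fun x y hx hy => ?_, fun x hx => ?_, ?_⟩, ?_, ?_⟩
  · refine hπ.inj x y hx hy ?_
    have h3 := congrArg (cj' V) h
    rwa [cj'_cj h2, cj'_cj h2] at h3
  · have hY : cj' V y ∈ RR M κ A := by
      refine ⟨fun y' hy' => ?_, fun Z hZ => ?_⟩
      · ext v
        show V (y (ContinuousLinearMap.adjoint V (κ y' v))) =
          κ y' (V (y (ContinuousLinearMap.adjoint V v)))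
        rw [← hVc' y' (hMN y' hy'), ← hVc y' (hMN y' hy')]
        congr 1
        have h3 := (VonNeumannAlgebra.mem_commutant_iff.1 hy') y hy.1
        exact congrArg (fun X : H →L[ℂ] H => X (ContinuousLinearMap.adjoint V v)) h3
      · have h3 := hy.2 _ (fromA Z hZ)
        have h4 := congrArg (cj' V) h3
        rw [cj'_mul h1, cj'_mul h1, cj'_cj h2] at h4
        exact h4.symm
    obtain ⟨x, hx, hx'⟩ := hπ.surj _ hY
    refine ⟨x, hx, ?_⟩
    rw [hx', cj_cj' h1]
  · rw [hπ.map_one, cj_one h1]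
  · rw [hπ.map_add x y hx hy, cj_add]
  · rw [hπ.map_smul c x hx, cj_smul]
  · rw [hπ.map_mul x y hx hy, cj_mul h2]
  · rw [hπ.map_star x hx, cj_star]
  · intro ι l f x C hf hx hlim v
    have h3 := hπ.normal ι l f x C hf hx hlim (V v)
    exact ((ContinuousLinearMap.adjoint V).continuous.tendsto _).comp h3
  · -- the flows
    intro l u x hl hu hx
    obtain ⟨huN, hu1, hu2, hut⟩ := hu
    set p : ℝ := Real.log l / (2 * Real.pi) with hp
    set R : K →L[ℂ] K := cj' V u with hR
    have hR1 : star R * R = 1 := by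
      rw [hR, ← cj'_star, ← cj'_mul h1, hu1, cj'_one h2]
    have hR2 : R * star R = 1 := by
      rw [hR, ← cj'_star, ← cj'_mul h1, hu2, cj'_one h2]
    -- `G_t u = l^{-it} u G_t`
    have hGu : ∀ t : ℝ, (w t * U t) * u = Complex.exp (-(I * t * Real.log l)) • (u * (w t * U t)) := by
      intro t
      have h3 := hut t
      unfold BicFlow.sgm at h3
      -- `u G_t u* = l^{it} G_t`
      have h4 : u * (w t * U t) * star u = Complex.exp (I * t * Real.log l) • (w t * U t) := by
        have h5 : u * w t * (U t * star u * star (U t)) * U t =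
            (Complex.exp (I * t * Real.log l) • w t) * U t := by rw [h3]
        rw [smul_mul_assoc] at h5
        rw [← h5]
        calc u * (w t * U t) * star u = u * w t * (U t * star u * (star (U t) * U t)) := by
              rw [hU1, mul_one]; simp only [mul_assoc]
          _ = _ := by simp only [mul_assoc]
      have h6 : u * (w t * U t) = Complex.exp (I * t * Real.log l) • ((w t * U t) * u) := by
        calc u * (w t * U t) = u * (w t * U t) * (star u * u) := by rw [hu1, mul_one]
          _ = (u * (w t * U t) * star u) * u := by simp only [mul_assoc]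
          _ = _ := by rw [h4, smul_mul_assoc]
      rw [h6, smul_smul, ← Complex.exp_add, neg_add_cancel, Complex.exp_zero, one_smul]
    have hVR : ∀ t : ℝ, (e t * κ (U t)) * R =
        Complex.exp (-(I * t * Real.log l)) • (R * (e t * κ (U t))) := by
      intro t
      ext v
      show (e t * κ (U t)) (V (u (ContinuousLinearMap.adjoint V v))) =
        Complex.exp (-(I * t * Real.log l)) • V (u (ContinuousLinearMap.adjoint V ((e t * κ (U t)) v)))
      rw [← hVG', ← hVG, ← map_smul]
      congr 1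
      exact congrArg (fun X : H →L[ℂ] H => X (ContinuousLinearMap.adjoint V v)) (hGu t)
    have hVS : ∀ t : ℝ, (e t * κ (U t)) * S p =
        Complex.exp (I * t * Real.log l) • (S p * (e t * κ (U t))) := by
      intro t
      have h7 : Complex.exp (2 * Real.pi * I * t * p) = Complex.exp (I * t * Real.log l) := by
        congr 1
        rw [hp]
        push_cast
        have hpi : (Real.pi : ℂ) ≠ 0 := by exact_mod_cast Real.pi_ne_zero
        field_simp
      calc (e t * κ (U t)) * S p = e t * (κ (U t) * S p) := mul_assoc _ _ _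
        _ = (e t * S p) * κ (U t) := by rw [F.κ_S, mul_assoc]
        _ = _ := by rw [F.e_S, smul_mul_assoc, mul_assoc (S p), h7]
    have hSR : S p * R ∈ A := by
      refine hDT _ (fun y' hy' => ?_) fun t => ?_
      · have h8 : R * κ y' = κ y' * R := by
          ext v
          show V (u (ContinuousLinearMap.adjoint V (κ y' v))) =
            κ y' (V (u (ContinuousLinearMap.adjoint V v)))
          rw [← hVc' y' hy', ← hVc y' hy']
          congr 1
          have h3 := (VonNeumannAlgebra.mem_commutant_iff.1 hy') u huN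
          exact congrArg (fun X : H →L[ℂ] H => X (ContinuousLinearMap.adjoint V v)) h3
        rw [mul_assoc, h8, ← mul_assoc, ← mul_assoc, F.κ_S]
      · calc (e t * κ (U t)) * (S p * R) = ((e t * κ (U t)) * S p) * R := (mul_assoc _ _ _).symm
          _ = Complex.exp (I * t * Real.log l) • (S p * ((e t * κ (U t)) * R)) := by
              rw [hVS, smul_mul_assoc, mul_assoc (S p)]
          _ = _ := by
              rw [hVR, mul_smul_comm, smul_smul, ← Complex.exp_add, add_neg_cancel, Complex.exp_zero,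
                one_smul, mul_assoc (S p)]
    have hcomm := (hπ.maps x hx).2 _ hSR
    -- `R π(x) R* = S(-p) π(x) S(p)`
    have hkey : R * π x * star R = S (-p) * π x * S p := by
      calc R * π x * star R = (S (-p) * S p) * R * π x * star R := by
            rw [S_neg_mul F, one_mul]
        _ = S (-p) * ((S p * R) * π x) * star R := by simp only [mul_assoc]
        _ = S (-p) * (π x * (S p * R)) * star R := by rw [hcomm]
        _ = S (-p) * π x * S p * (R * star R) := by simp only [mul_assoc]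
        _ = _ := by rw [hR2, mul_one]
    rw [hπβ l x hl hx, ← hkey, cj_mul h2, cj_mul h2, cj_star, hR, cj_cj' h1]
  · -- the expectation
    intro x hx
    set y : H →L[ℂ] H := cj V (π x) with hy
    have hyM : y ∈ M := (hmaps _ (hπ.maps x hx)).1
    set d : H →L[ℂ] H := Ex y - vst ξ x • (1 : H →L[ℂ] H) with hd
    have hdN : d ∈ N := sub_mem (hC.exp.mem y hyM) (N.toStarSubalgebra.smul_mem N.one_mem (vst ξ x))
    have hkey : ∀ a : H →L[ℂ] H, a ∈ N → ⟪a ξ, d ξ⟫_ℂ = 0 := by
      intro a ha
      have h3 : ⟪a ξ, Ex y ξ⟫_ℂ = ⟪a ξ, y ξ⟫_ℂ := by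
        rw [← hP y hyM, ← ContinuousLinearMap.adjoint_inner_left P, ← ContinuousLinearMap.star_eq_adjoint,
          hPs, hPξ a ha]
      have h4 : ⟪a ξ, y ξ⟫_ℂ = vst ξ x * ⟪a ξ, ξ⟫_ℂ := by
        have h5 : ⟪a ξ, y ξ⟫_ℂ = ⟪V (a ξ), π x (V ξ)⟫_ℂ := by
          rw [hy, cj_apply, ContinuousLinearMap.adjoint_inner_right]
        have h6 : ∀ b : H →L[ℂ] H, b ∈ N → V (b ξ) = κ P (V (b ξ)) := fun b hb => by
          rw [← hVc P hPN, hPξ b hb]
        have h7 : V ξ = κ P (V ξ) := h6 1 N.one_mem
        have hκPs : star (κ P) = κ P := by rw [← map_star, hPs]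
        rw [h5, h6 a ha]
        conv_lhs => rw [h7]
        rw [← ContinuousLinearMap.adjoint_inner_right (κ P), ← ContinuousLinearMap.star_eq_adjoint, hκPs]
        have h8 : κ P (π x (κ P (V ξ))) = vst ξ x • κ P (V ξ) :=
          congrArg (fun X : K →L[ℂ] K => X (V ξ)) (hπP P hP x hx)
        rw [h8, inner_smul_right, ← h7]
        congr 1
        have h9 : ⟪V (a ξ), V ξ⟫_ℂ = ⟪a ξ, ξ⟫_ℂ := by
          rw [← ContinuousLinearMap.adjoint_inner_right V, h1]
        exact h9
      rw [hd, sub_apply, inner_sub_right, h3, h4, smul_apply, one_apply_eq_self, inner_smul_right,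
        sub_self]
    have h10 : d ξ = 0 := inner_self_eq_zero.1 (hkey d hdN)
    exact sub_eq_zero.1 (D.std.sep d (D.std.le d hdN) h10)

end

end Pool.Agent.Lead.BCB
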