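import Pool.Agent.Lead.BCB.All
import Pool.Agent.Lead.BCB.Transp
import Pool.Agent.Lead.BCB.Conc
import Pool.Agent.H75.BC.T.QFac
import Pool.Agent.H75.L.W662.CB.All

/-!
Phase B (lead): the final assembly.
-/

set_option autoImplicit false

open MeasureTheory Filter Topology Complex
open scoped InnerProductSpace ENNReal

namespace Pool.Agent.Lead.BCB

open Pool.Agent.W662.CB Pool.Agent.H75.BC Pool.Agent.H75.BC.FB Pool.Agent.Lead

noncomputable section

/-- Schroeder-Bernstein -/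
def P_SB : Prop := ∀ (K : Type) [NormedAddCommGroup K] [InnerProductSpace ℂ K] [CompleteSpace K]
  (A : VonNeumannAlgebra K) (q v : K →L[ℂ] K), q ∈ A → star q = q → q * q = q → v ∈ A →
  star v * v = 1 → q * v = v → ∃ V : K →L[ℂ] K, V ∈ A ∧ star V * V = 1 ∧ V * star V = q

/-- the Baire section -/
def P_Baire : Prop := ∀ (H : Type) [NormedAddCommGroup H] [InnerProductSpace ℂ H] [CompleteSpace H]
  [TopologicalSpace.SeparableSpace H] (N : VonNeumannAlgebra H) (G : ℝ → H →L[ℂ] H),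
  (∀ s : ℝ, ∃ u : H →L[ℂ] H, u ∈ N ∧ star u * u = 1 ∧ u * star u = 1 ∧
    ∀ t : ℝ, G t * u = Complex.exp (2 * Real.pi * I * s * t) • (u * G t)) →
  ∀ v : H, ‖v‖ = 1 → ∃ (α β : ℝ) (η : H), α < β ∧ ∀ s ∈ Set.Icc α β, ∃ x : H →L[ℂ] H, x ∈ N ∧
    ‖x‖ ≤ 1 ∧ (∀ t : ℝ, G t * x = Complex.exp (2 * Real.pi * I * s * t) • (x * G t)) ∧
    1 / 4 ≤ (⟪η, x v⟫_ℂ).re

variable {H : Type} [NormedAddCommGroup H] [InnerProductSpace ℂ H] [CompleteSpace H]

theorem mem_vnGen' {K : Type} [NormedAddCommGroup K] [InnerProductSpace ℂ K] [CompleteSpace K]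
    {S : Set (K →L[ℂ] K)} {T : K →L[ℂ] K} (hT : T ∈ S) : T ∈ vnGen S := by
  rw [mem_vnGen_iff]
  intro R hR
  exact (hR T hT).1

/-- the concrete core data -/
theorem exists_coreD {M N : VonNeumannAlgebra H} {ξ : H} {U : ℝ → H →L[ℂ] H}
    {Ex : (H →L[ℂ] H) → (H →L[ℂ] H)} (hle : ∀ x : H →L[ℂ] H, x ∈ N → x ∈ M) (hξ : ‖ξ‖ = 1)
    (hcyc : IsCyclic M ξ) (hsep : IsSeparating M ξ) (hmod : IsModular M ξ U) (hE : IsCondExp M N Ex)
    (hinv : ∀ x : H →L[ℂ] H, x ∈ M → vst ξ (Ex x) = vst ξ x)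
    (hfac : IsFac (core N U)) :
    ∃ (κ : (H →L[ℂ] H) →⋆ₐ[ℂ] (LR H →L[ℂ] LR H)) (e S : ℝ → LR H →L[ℂ] LR H)
      (W : LR H →L[ℂ] LR H) (J : ℝ → H →L[ℂ] LR H) (E : ℝ → ℂ → LR H →L[ℂ] LR H),
      CoreD M N ξ U κ e S W J E (core N U) ∧ (∀ y, IsConst y (κ y)) ∧ (∀ t, IsShift t (e (-t))) ∧
      ∀ (y : H →L[ℂ] H) (f : LR H), (W * κ y * star W) f =ᵐ[volume] fun s => sgm U (-s) y (f s) := by
  obtain ⟨κ, e, S, W, J, E, F, hκ, he, hS, hW⟩ := aFr H M ξ U hmod
  refine ⟨κ, e, S, W, J, E, ⟨⟨hle, hξ, hsep, hmod, ?_⟩, F, fun y hy => ?_, fun t => ?_, ?_, hfac⟩,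
    hκ, he, hW⟩
  · exact pA8 H M N ξ U Ex hle hcyc hsep hmod hE hinv
  · exact mem_vnGen' (Or.inl ⟨y, hy, hW y⟩)
  · refine mem_vnGen' (Or.inr ⟨-t, fun f => ?_⟩)
    have h1 := he (-t) f
    rwa [neg_neg] at h1
  · intro Z hZ T hT1 hT2
    have h1 := (mem_vnGen_iff _ _).1 hZ
    refine h1 T ?_
    rintro X (⟨x, hx, hX⟩ | ⟨t, hX⟩)
    · have h2 : X = W * κ x * star W := by
        refine ContinuousLinearMap.ext fun f => Lp.ext ?_
        filter_upwards [hX f, hW x f] with s h3 h4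
        rw [h3, h4]
      have h5 : star X = W * κ (star x) * star W := by
        rw [h2, star_mul, star_mul, star_star, map_star, mul_assoc]
      rw [h5, h2]
      exact ⟨hT1 x hx, hT1 (star x) (star_mem hx)⟩
    · have h2 : X = e (-t) := by
        refine ContinuousLinearMap.ext fun f => Lp.ext ?_
        filter_upwards [hX f, he t f] with s h3 h4
        rw [h3, h4]
      have h5 : star X = e t := by
        rw [h2, F.e_star, neg_neg]
      rw [h5, h2]
      exact ⟨hT2 (-t), hT2 t⟩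

/-- infinitely many copies of a box -/
theorem exists_copies {K : Type} [NormedAddCommGroup K] [InnerProductSpace ℂ K] [CompleteSpace K]
    {M N : VonNeumannAlgebra H} {ξ : H} {U : ℝ → H →L[ℂ] H}
    {κ : (H →L[ℂ] H) →⋆ₐ[ℂ] (K →L[ℂ] K)} {e S : ℝ → K →L[ℂ] K}
    {W : K →L[ℂ] K} {J : ℝ → H →L[ℂ] K} {E : ℝ → ℂ → K →L[ℂ] K} {A : VonNeumannAlgebra K}
    (D : CoreD M N ξ U κ e S W J E A) :
    ∃ (r : K →L[ℂ] K) (w : ℕ → K →L[ℂ] K), r ∈ A ∧ star r = r ∧ r * r = r ∧ r ≠ 0 ∧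
      (∀ n, w n ∈ A) ∧ (∀ n, star (w n) * w n = r) ∧ ∀ m n, m ≠ n → star (w m) * w n = 0 := by
  have F := D.fr
  obtain ⟨r0, hr0, h0⟩ := aV H K M N ξ U κ e S W J E A D
  have hV : ∀ n : ℕ, ∃ V : K →L[ℂ] K, V ∈ A ∧ star V * V = bx S E (-(n * r0)) r0 ∧
      E r0 0 * V = V := fun n =>
    h0 r0 (-(n * r0)) hr0 le_rfl (by have : (0 : ℝ) ≤ n * r0 := by positivity
                                     linarith)
  choose V hVA hV1 hV2 using hV
  have hS1 : ∀ n : ℕ, star (S (n * r0) * V n * S (-(n * r0))) =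
      S (n * r0) * star (V n) * S (-(n * r0)) := fun n => by
    rw [star_mul, star_mul, F.S_star, F.S_star, neg_neg, mul_assoc]
  have hwb : ∀ n : ℕ, bx S E (n * r0) r0 * (S (n * r0) * V n * S (-(n * r0))) =
      S (n * r0) * V n * S (-(n * r0)) := fun n => by
    unfold bx
    calc S (n * r0) * E r0 0 * S (-(n * r0)) * (S (n * r0) * V n * S (-(n * r0)))
        = S (n * r0) * E r0 0 * (S (-(n * r0)) * S (n * r0)) * V n * S (-(n * r0)) := by
          simp only [mul_assoc]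
      _ = S (n * r0) * (E r0 0 * V n) * S (-(n * r0)) := by
          rw [S_neg_mul F, mul_one]; simp only [mul_assoc]
      _ = _ := by rw [hV2]
  refine ⟨bx S E 0 r0, fun n => S (n * r0) * V n * S (-(n * r0)), bx_mem D hr0 0, bx_sa F hr0 0,
    bx_idem F hr0 0, ?_, fun n => S_mem D _ (hVA n), fun n => ?_, fun m n hmn => ?_⟩
  · intro h
    have h1 : bx S E 0 r0 (J r0 ξ) = J r0 ξ := by rw [bx_zero F]; exact F.E_J r0 ξ hr0
    rw [h] at h1
    have h2 := J_norm F hr0 ξ
    rw [← h1, D.std.unit] at h2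
    simp at h2
  · rw [hS1]
    calc S (n * r0) * star (V n) * S (-(n * r0)) * (S (n * r0) * V n * S (-(n * r0)))
        = S (n * r0) * star (V n) * (S (-(n * r0)) * S (n * r0)) * V n * S (-(n * r0)) := by
          simp only [mul_assoc]
      _ = S (n * r0) * (star (V n) * V n) * S (-(n * r0)) := by
          rw [S_neg_mul F, mul_one]; simp only [mul_assoc]
      _ = _ := by rw [hV1, S_bx F, add_neg_cancel]
  · have h3 : bx S E (m * r0) r0 * bx S E (n * r0) r0 = 0 := by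
      rcases lt_or_gt_of_ne hmn with h | h
      · have h9 : (m : ℝ) + 1 ≤ n := by exact_mod_cast h
        exact F.box_orth _ _ _ _ hr0 hr0 (by nlinarith)
      · have h9 : (n : ℝ) + 1 ≤ m := by exact_mod_cast h
        have h10 := F.box_orth (n * r0) (m * r0) r0 r0 hr0 hr0 (by nlinarith)
        have h11 := congrArg star h10
        rw [star_mul, bx_sa F hr0, bx_sa F hr0, star_zero] at h11
        exact h11
    show star (S (m * r0) * V m * S (-(m * r0))) * (S (n * r0) * V n * S (-(n * r0))) = 0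
    rw [← hwb m, ← hwb n, star_mul, bx_sa F hr0]
    calc star (S (m * r0) * V m * S (-(m * r0))) * bx S E (m * r0) r0 *
        (bx S E (n * r0) r0 * (S (n * r0) * V n * S (-(n * r0))))
        = star (S (m * r0) * V m * S (-(m * r0))) * (bx S E (m * r0) r0 * bx S E (n * r0) r0) *
          (S (n * r0) * V n * S (-(n * r0))) := by simp only [mul_assoc]
      _ = 0 := by rw [h3, mul_zero, zero_mul]

/-- the unitary intertwiner between the weight `ψ` and the dominant weight of the core -/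
theorem exists_V (hSB : P_SB) (hB : P_Baire) [TopologicalSpace.SeparableSpace H]
    {M N : VonNeumannAlgebra H} {ξ : H} {U w : ℝ → H →L[ℂ] H}
    {κ : (H →L[ℂ] H) →⋆ₐ[ℂ] (LR H →L[ℂ] LR H)} {e S : ℝ → LR H →L[ℂ] LR H}
    {W : LR H →L[ℂ] LR H} {J : ℝ → H →L[ℂ] LR H} {E : ℝ → ℂ → LR H →L[ℂ] LR H}
    {A : VonNeumannAlgebra (LR H)}
    (D : CoreD M N ξ U κ e S W J E A)
    (hκ : ∀ y, IsConst y (κ y)) (he : ∀ t, IsShift t (e (-t)))
    (hDT : ∀ Z : LR H →L[ℂ] LR H, (∀ y' : H →L[ℂ] H, y' ∈ N.commutant → Z * κ y' = κ y' * Z) →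
      (∀ t : ℝ, (e t * κ (U t)) * Z = Z * (e t * κ (U t))) → Z ∈ A)
    (hw : BicFlow.IsDominant N U w) :
    ∃ V : H →L[ℂ] LR H, (∀ v : H, ContinuousLinearMap.adjoint V (V v) = v) ∧
      (∀ w : LR H, V (ContinuousLinearMap.adjoint V w) = w) ∧
      (∀ y' : H →L[ℂ] H, y' ∈ N.commutant → ∀ v : H, V (y' v) = κ y' (V v)) ∧
      ∀ (t : ℝ) (v : H), V ((w t * U t) v) = (e t * κ (U t)) (V v) := by
  have F := D.fr
  have hm := D.std.modular
  have hww := hw.weight
  have hUU : ∀ t : ℝ, U (-t) * U t = 1 := fun t => by rw [← hm.add, neg_add_cancel, hm.zero]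
  have hU1 : ∀ t : ℝ, star (U t) * U t = 1 := fun t => by rw [hm.star_eq, hUU]
  have hU2 : ∀ t : ℝ, U t * star (U t) = 1 := fun t => by
    rw [hm.star_eq, ← hm.add, add_neg_cancel, hm.zero]
  -- the group `G`
  set G : ℝ → H →L[ℂ] H := fun t => w t * U t with hG
  have hw0 : w 0 = 1 := by
    have h1 := hww.cocycle 0 0
    have h2 : BicFlow.sgm U 0 (w 0) = w 0 := by
      unfold BicFlow.sgm
      rw [hm.zero, star_one, one_mul, mul_one]
    rw [add_zero, h2] at h1
    calc w 0 = star (w 0) * w 0 * w 0 := by rw [hww.un1, one_mul]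
      _ = star (w 0) * (w 0 * w 0) := mul_assoc _ _ _
      _ = 1 := by rw [← h1, hww.un1]
  have hGadd : ∀ s t : ℝ, G (s + t) = G s * G t := by
    intro s t
    rw [hG]
    simp only
    rw [hww.cocycle, hm.add]
    unfold BicFlow.sgm
    calc w s * (U s * w t * star (U s)) * (U s * U t)
        = w s * U s * w t * (star (U s) * U s) * U t := by simp only [mul_assoc]
      _ = _ := by rw [hU1, mul_one]; simp only [mul_assoc]
  have hG0 : G 0 = 1 := by rw [hG]; simp only; rw [hw0, hm.zero, mul_one]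
  have hGs1 : ∀ t : ℝ, star (G t) * G t = 1 := by
    intro t
    rw [hG]
    simp only
    rw [star_mul]
    calc star (U t) * star (w t) * (w t * U t) = star (U t) * (star (w t) * w t) * U t := by
          simp only [mul_assoc]
      _ = 1 := by rw [hww.un1, mul_one, hU1]
  have hGstar : ∀ t : ℝ, star (G t) = G (-t) := by
    intro t
    calc star (G t) = star (G t) * (G t * G (-t)) := by rw [← hGadd, add_neg_cancel, hG0, mul_one]
      _ = (star (G t) * G t) * G (-t) := (mul_assoc (star (G t)) (G t) (G (-t))).symm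
      _ = G (-t) := by rw [hGs1, one_mul]
  have hGn : ∀ t : ℝ, ‖G t‖ ≤ 1 := fun t =>
    (G t).opNorm_le_bound zero_le_one fun v => by rw [norm_le_one_of_un (hGs1 t), one_mul]
  -- the group `V_t`
  have hVstar : ∀ t : ℝ, star (e t * κ (U t)) = e (-t) * κ (U (-t)) := by
    intro t
    rw [star_mul, ← map_star, hm.star_eq, F.e_star, F.κ_e]
  -- membership
  have hmem : ∀ Z : LR H →L[ℂ] LR H, Z ∈ A ↔
      (∀ y : H →L[ℂ] H, y ∈ N.commutant → Z * κ y = κ y * Z) ∧
      ∀ t : ℝ, Z * (e t * κ (U t)) = (e t * κ (U t)) * Z := fun Z =>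
    ⟨fun hZ => ⟨fun y hy => (κ_comm D hZ hy).symm, fun t => (V_comm D hZ t).symm⟩,
      fun h => hDT Z h.1 fun t => (h.2 t).symm⟩
  -- the eigenunitaries
  have hu : ∀ s : ℝ, ∃ u : H →L[ℂ] H, u ∈ N ∧ star u * u = 1 ∧ u * star u = 1 ∧
      ∀ t : ℝ, G t * u = Complex.exp (2 * Real.pi * I * s * t) • (u * G t) := by
    intro s
    obtain ⟨u, huN, hu1, hu2, hut⟩ := hw.scale (Real.exp (-(2 * Real.pi * s))) (Real.exp_pos _)
    refine ⟨u, huN, hu1, hu2, fun t => ?_⟩
    have h3 := hut t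
    unfold BicFlow.sgm at h3
    set c : ℂ := Complex.exp (I * t * Real.log (Real.exp (-(2 * Real.pi * s)))) with hc
    have h4 : u * G t * star u = c • G t := by
      have h5 : u * w t * (U t * star u * star (U t)) * U t = (c • w t) * U t := by rw [h3]
      rw [smul_mul_assoc] at h5
      rw [hG]
      simp only
      rw [← h5]
      calc u * (w t * U t) * star u = u * w t * (U t * star u * (star (U t) * U t)) := by
            rw [hU1, mul_one]; simp only [mul_assoc]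
        _ = _ := by simp only [mul_assoc]
    have h6 : u * G t = c • (G t * u) := by
      calc u * G t = u * G t * (star u * u) := by rw [hu1, mul_one]
        _ = (u * G t * star u) * u := by simp only [mul_assoc]
        _ = _ := by rw [h4, smul_mul_assoc]
    rw [h6, smul_smul, hc, ← Complex.exp_add]
    have h7 : 2 * (Real.pi : ℂ) * I * s * t + I * t * Real.log (Real.exp (-(2 * Real.pi * s))) = 0 := by
      rw [Real.log_exp]
      push_cast
      ring
    rw [h7, Complex.exp_zero, one_smul]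
  -- the unitary of the cocycle
  obtain ⟨Q, hQ1, hQ2, hQ3⟩ := conc_Q N U w hm.zero hm.add hm.star_eq hm.cont
    (fun t x hx => by
      have h2 := D.std.inv t x hx
      unfold sgm at h2
      rwa [hm.star_eq] at h2)
    hww.mem hww.un1 hww.cont hww.cocycle κ e hκ he
  -- fullness
  have hfull : ∀ v : H, v ≠ 0 → ∃ T : H →L[ℂ] LR H,
      QFac.IT N κ G (fun t => e t * κ (U t)) T ∧ T v ≠ 0 := by
    intro v hv
    have hv0 : (‖v‖ : ℂ) ≠ 0 := by exact_mod_cast norm_ne_zero_iff.2 hv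
    obtain ⟨α, β, η, hαβ, hx⟩ := hB H N G hu ((‖v‖ : ℂ)⁻¹ • v) (by
      rw [norm_smul, norm_inv, Complex.norm_real, norm_norm, inv_mul_cancel₀ (norm_ne_zero_iff.2 hv)])
    obtain ⟨T, hT1, hT2, hT3⟩ := exists_T F N G hGn Q hQ1 hQ2 hQ3 hαβ η _ hx
    refine ⟨T, ⟨fun y hy v => ?_, fun t v => ?_⟩, fun h => hT3 ?_⟩
    · exact congrArg (fun X : H →L[ℂ] LR H => X v) (hT1 y hy)
    · exact congrArg (fun X : H →L[ℂ] LR H => X v) (hT2 t)
    · rw [map_smul, h, smul_zero]
  -- properly infinite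
  obtain ⟨a, b, ha, hb, ha1, hb1, hab⟩ := hw.inf
  have hC1 : ∀ z : H →L[ℂ] H, z ∈ BicFlow.Cent N U w → QFac.C1 N G z := fun z hz =>
    ⟨fun y hy => (VonNeumannAlgebra.mem_commutant_iff.1 hy) z hz.1,
      fun t => (cent_comm hU1 hww.un1 hz t).symm⟩
  obtain ⟨r, wn, hrA, hrs, hrr, hr0, hwA, hw1, hwo⟩ := exists_copies D
  have hnt : Nontrivial H := ⟨ξ, 0, fun h => by
    have := D.std.unit
    rw [h, norm_zero] at this
    exact zero_ne_one this⟩
  have : Fact ((2 : ℝ≥0∞) ≠ ⊤) := ⟨by simp⟩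
  have : SecondCountableTopology (LR H) := Lp.SecondCountableTopology
  obtain ⟨⟨T, hTI, hTn⟩, S', hSn, hSI⟩ := QFac.qfac N κ G (fun t => e t * κ (U t)) A hGstar hVstar
    D.fac hmem hfull a b (hC1 a ha) (hC1 b hb) ha1 hb1 hab r hrA hrs hrr hr0 wn hwA hw1 hwo
  -- isometries
  have hiso : ∀ {X Y : Type} [NormedAddCommGroup X] [InnerProductSpace ℂ X] [CompleteSpace X]
      [NormedAddCommGroup Y] [InnerProductSpace ℂ Y] [CompleteSpace Y] (T : X →L[ℂ] Y),
      (∀ v, ‖T v‖ = ‖v‖) → ∀ v, ContinuousLinearMap.adjoint T (T v) = v := by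
    intro X Y _ _ _ _ _ _ T hT v
    refine ext_inner_right ℂ fun w => ?_
    rw [ContinuousLinearMap.adjoint_inner_left]
    let T' : X →ₗᵢ[ℂ] Y := ⟨T.toLinearMap, hT⟩
    exact T'.inner_map_map v w
  have hT1 := hiso T hTn
  have hS1 := hiso S' hSn
  -- adjoint intertwining relations for `T`
  have hTa1 : ∀ y : H →L[ℂ] H, y ∈ N.commutant → ∀ w : LR H,
      y (ContinuousLinearMap.adjoint T w) = ContinuousLinearMap.adjoint T (κ y w) := by
    intro y hy w
    refine ext_inner_right ℂ fun v => ?_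
    rw [ContinuousLinearMap.adjoint_inner_left]
    have hys : star y ∈ N.commutant := star_mem hy
    have h1 := hTI.1 (star y) hys v
    have h2 : ⟪y (ContinuousLinearMap.adjoint T w), v⟫_ℂ =
        ⟪ContinuousLinearMap.adjoint T w, star y v⟫_ℂ := by
      rw [ContinuousLinearMap.star_eq_adjoint, ContinuousLinearMap.adjoint_inner_right]
    rw [h2, ContinuousLinearMap.adjoint_inner_left, h1, map_star, ContinuousLinearMap.star_eq_adjoint,
      ContinuousLinearMap.adjoint_inner_right]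
  have hTa2 : ∀ (t : ℝ) (w : LR H), G t (ContinuousLinearMap.adjoint T w) =
      ContinuousLinearMap.adjoint T ((e t * κ (U t)) w) := by
    intro t w
    refine ext_inner_right ℂ fun v => ?_
    rw [ContinuousLinearMap.adjoint_inner_left]
    have h1 := hTI.2 (-t) v
    have h2 : ⟪G t (ContinuousLinearMap.adjoint T w), v⟫_ℂ =
        ⟪ContinuousLinearMap.adjoint T w, G (-t) v⟫_ℂ := by
      rw [← hGstar, ContinuousLinearMap.star_eq_adjoint, ContinuousLinearMap.adjoint_inner_right]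
    rw [h2, ContinuousLinearMap.adjoint_inner_left, h1]
    have h3 : ⟪(e t * κ (U t)) w, T v⟫_ℂ = ⟪w, star (e t * κ (U t)) (T v)⟫_ℂ := by
      rw [ContinuousLinearMap.star_eq_adjoint, ContinuousLinearMap.adjoint_inner_right]
    rw [h3, hVstar]
  -- relations for `S'`
  have hSa1 : ∀ y : H →L[ℂ] H, y ∈ N.commutant → ∀ w : LR H, S' (κ y w) = y (S' w) := by
    intro y hy w
    refine ext_inner_right ℂ fun v => ?_
    have hys : star y ∈ N.commutant := star_mem hy
    have h1 := hSI.1 (star y) hys v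
    have h2 : ⟪y (S' w), v⟫_ℂ = ⟪S' w, star y v⟫_ℂ := by
      rw [ContinuousLinearMap.star_eq_adjoint, ContinuousLinearMap.adjoint_inner_right]
    rw [h2, ← ContinuousLinearMap.adjoint_inner_right S', ← ContinuousLinearMap.adjoint_inner_right S',
      h1, map_star, ContinuousLinearMap.star_eq_adjoint, ContinuousLinearMap.adjoint_inner_right (κ y)]
  have hSa2 : ∀ (t : ℝ) (w : LR H), S' ((e t * κ (U t)) w) = G t (S' w) := by
    intro t w
    refine ext_inner_right ℂ fun v => ?_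
    have h1 := hSI.2 (-t) v
    have h2 : ⟪G t (S' w), v⟫_ℂ = ⟪S' w, G (-t) v⟫_ℂ := by
      rw [← hGstar, ContinuousLinearMap.star_eq_adjoint, ContinuousLinearMap.adjoint_inner_right]
    rw [h2, ← ContinuousLinearMap.adjoint_inner_right S', ← ContinuousLinearMap.adjoint_inner_right S',
      h1]
    have h3 : ⟪(e t * κ (U t)) w, ContinuousLinearMap.adjoint S' v⟫_ℂ =
        ⟪w, star (e t * κ (U t)) (ContinuousLinearMap.adjoint S' v)⟫_ℂ := by
      rw [ContinuousLinearMap.star_eq_adjoint, ContinuousLinearMap.adjoint_inner_right (e t * κ (U t))]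
    rw [h3, hVstar]
  -- `q = T T*`, `v = T S'`
  set q : LR H →L[ℂ] LR H := T ∘L (ContinuousLinearMap.adjoint T) with hq
  set v : LR H →L[ℂ] LR H := T ∘L S' with hv
  have hqA : q ∈ A := by
    rw [hmem]
    refine ⟨fun y hy => ?_, fun t => ?_⟩
    · refine ContinuousLinearMap.ext fun w => ?_
      show T (ContinuousLinearMap.adjoint T (κ y w)) = κ y (T (ContinuousLinearMap.adjoint T w))
      rw [← hTa1 y hy, hTI.1 y hy]
    · refine ContinuousLinearMap.ext fun w => ?_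
      show T (ContinuousLinearMap.adjoint T ((e t * κ (U t)) w)) =
        (e t * κ (U t)) (T (ContinuousLinearMap.adjoint T w))
      rw [← hTa2, hTI.2]
  have hqs : star q = q := by
    rw [hq, ContinuousLinearMap.star_eq_adjoint, ContinuousLinearMap.adjoint_comp,
      ContinuousLinearMap.adjoint_adjoint]
  have hqq : q * q = q := by
    refine ContinuousLinearMap.ext fun w => ?_
    show T (ContinuousLinearMap.adjoint T (T (ContinuousLinearMap.adjoint T w))) =
      T (ContinuousLinearMap.adjoint T w)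
    rw [hT1]
  have hvA : v ∈ A := by
    rw [hmem]
    refine ⟨fun y hy => ?_, fun t => ?_⟩
    · refine ContinuousLinearMap.ext fun w => ?_
      show T (S' (κ y w)) = κ y (T (S' w))
      rw [hSa1 y hy, hTI.1 y hy]
    · refine ContinuousLinearMap.ext fun w => ?_
      show T (S' ((e t * κ (U t)) w)) = (e t * κ (U t)) (T (S' w))
      rw [hSa2, hTI.2]
  have hv1 : star v * v = 1 := by
    refine ContinuousLinearMap.ext fun w => ?_
    have h1 : star v = (ContinuousLinearMap.adjoint S') ∘L (ContinuousLinearMap.adjoint T) := by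
      rw [hv, ContinuousLinearMap.star_eq_adjoint, ContinuousLinearMap.adjoint_comp]
    rw [h1]
    show ContinuousLinearMap.adjoint S' (ContinuousLinearMap.adjoint T (T (S' w))) = w
    rw [hT1, hS1]
  have hqv : q * v = v := by
    refine ContinuousLinearMap.ext fun w => ?_
    show T (ContinuousLinearMap.adjoint T (T (S' w))) = T (S' w)
    rw [hT1]
  obtain ⟨V1, hV1A, hV11, hV12⟩ := hSB (LR H) A q v hqA hqs hqq hvA hv1 hqv
  have hV1s := (hmem _).1 (star_mem hV1A)
  set V : H →L[ℂ] LR H := (star V1) ∘L T with hV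
  have hVadj : ContinuousLinearMap.adjoint V = (ContinuousLinearMap.adjoint T) ∘L V1 := by
    rw [hV, ContinuousLinearMap.adjoint_comp, ContinuousLinearMap.star_eq_adjoint,
      ContinuousLinearMap.adjoint_adjoint]
  refine ⟨V, fun x => ?_, fun x => ?_, fun y hy x => ?_, fun t x => ?_⟩
  · rw [hVadj]
    show ContinuousLinearMap.adjoint T (V1 (star V1 (T x))) = x
    have h1 : V1 (star V1 (T x)) = q (T x) := by rw [← mul_ap, hV12]
    rw [h1]
    show ContinuousLinearMap.adjoint T (T (ContinuousLinearMap.adjoint T (T x))) = x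
    rw [hT1, hT1]
  · rw [hVadj]
    show star V1 (T (ContinuousLinearMap.adjoint T (V1 x))) = x
    have h1 : T (ContinuousLinearMap.adjoint T (V1 x)) = V1 x := by
      have h2 : q (V1 x) = V1 x := by
        rw [← mul_ap, ← hV12, mul_assoc, hV11, mul_one]
      exact h2
    rw [h1, ← mul_ap, hV11]
    rfl
  · show star V1 (T (y x)) = κ y (star V1 (T x))
    rw [hTI.1 y hy, ← mul_ap, hV1s.1 y hy, mul_ap]
  · show star V1 (T (G t x)) = (e t * κ (U t)) (star V1 (T x))
    rw [hTI.2, ← mul_ap, hV1s.2 t, mul_ap]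

/-- conversion of the data -/
theorem conv_mod {M : VonNeumannAlgebra H} {ξ : H} {U : ℝ → H →L[ℂ] H}
    (h : BicFlow.IsModular M ξ U) : IsModular M ξ U :=
  ⟨h.zero, h.add, h.star_eq, h.cont, h.fix, h.mem, h.kms⟩

theorem conv_ce {M N : VonNeumannAlgebra H} {Ex : (H →L[ℂ] H) → (H →L[ℂ] H)}
    (h : BicFlow.IsCondExp M N Ex) : IsCondExp M N Ex :=
  ⟨h.mem, h.proj, h.add, h.smul, h.star_eq, h.pos, h.left, h.right⟩

/-- The final theorem. -/
theorem final (hSB : P_SB) (hB : P_Baire) (H : Type) [NormedAddCommGroup H] [InnerProductSpace ℂ H]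
    [CompleteSpace H] [TopologicalSpace.SeparableSpace H]
    (M N : VonNeumannAlgebra H) (ξ : H) (U : ℝ → H →L[ℂ] H) (E : (H →L[ℂ] H) → (H →L[ℂ] H))
    (hd : BicFlow.IsData M N ξ U E) (hN : BicFlow.IsTypeIIIOne N U) (w : ℝ → H →L[ℂ] H)
    (hw : BicFlow.IsDominant N U w) :
    ∃ (β : ℝ → (H →L[ℂ] H) → (H →L[ℂ] H)) (π : (H →L[ℂ] H) → (H →L[ℂ] H)),
      BicFlow.IsBicFlow N M ξ β ∧
      BicFlow.IsNormalIso (BicFlow.Bic N M ξ) (BicFlow.RelComm N M U w) π ∧
      (∀ (l : ℝ) (u x : H →L[ℂ] H), 0 < l → BicFlow.Scales N U w l u → x ∈ BicFlow.Bic N M ξ →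
        u * π x * star u = π (β l x)) ∧
      ∀ x : H →L[ℂ] H, x ∈ BicFlow.Bic N M ξ → E (π x) = BicFlow.vst ξ (E x) • (1 : H →L[ℂ] H) := by
  have hmod := conv_mod hd.modular
  have hce := conv_ce hd.condExp
  have hfac : IsFac (core N U) := hN.2
  obtain ⟨κ, e, S, W, J, Eb, D, hκ, he, hW⟩ :=
    exists_coreD hd.le hd.unit hd.cyclic hd.sep hmod hce hd.invariant hfac
  obtain ⟨J0, ρ, R⟩ := aJ H M ξ U hd.unit hd.cyclic hd.sep hmod
  have hC : G.CE M N ξ E := ⟨hd.cyclic, hce, hd.invariant⟩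
  have hUn1 : ∀ t : ℝ, ‖U t‖ ≤ 1 := fun t =>
    (U t).opNorm_le_bound zero_le_one fun v => by
      rw [norm_le_one_of_un (by rw [hmod.star_eq, ← hmod.add, neg_add_cancel, hmod.zero]), one_mul]
  have hWc := conc_hW N U hmod.zero hmod.star_eq hmod.cont hUn1 κ hκ W hW
  have hDT : ∀ Z : LR H →L[ℂ] LR H, (∀ y' : H →L[ℂ] H, y' ∈ N.commutant → Z * κ y' = κ y' * Z) →
      (∀ t : ℝ, (e t * κ (U t)) * Z = Z * (e t * κ (U t))) → Z ∈ core N U :=
    fun Z h1 h2 => dt D hWc h1 h2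
  obtain ⟨V, h1, h2, hVc, hVG⟩ := exists_V hSB hB D hκ he hDT hw
  obtain ⟨β, π, hβ, hπ, hπβ, hπP, -⟩ := G.abs_main aL aEx aEv aInj aF1c aCT aAC aFlow D R hC
  obtain ⟨g1, g2, g3⟩ := transport D hDT hC hd.cyclic hw.weight h1 h2 hVc hVG hπ hπβ hπP
  refine ⟨β, fun x => cj V (π x), ⟨hβ.mem, hβ.one, hβ.mul, hβ.map_add, hβ.map_smul, hβ.map_mul,
    hβ.map_star, hβ.cont, fun l x a hl hx ha => hβ.asym l x a hl hx ha.1 ha.2.1 ha.2.2⟩, g1, g2,
    fun x hx => ?_⟩
  have h3 := hd.invariant x hx.1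
  rw [h3]
  exact g3 x hx

end

end Pool.Agent.Lead.BCB
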