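import Pool.Agent.Lead.BCB.Weyl

/-!
Phase B (lead): integrability of the orbit of a box-supported operator under the dual flow, and the weak
integrals `∫ e^{2πitp} S_p Z S_{-p} dp`.
-/

set_option autoImplicit false

open MeasureTheory Filter Topology Complex
open scoped InnerProductSpace ENNReal

namespace Pool.Agent.Lead.BCB

open Pool.Agent.W662.CB Pool.Agent.H75.BC Pool.Agent.H75.BC.FB

noncomputable section

variable {H : Type} [NormedAddCommGroup H] [InnerProductSpace ℂ H] [CompleteSpace H]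
  {K : Type} [NormedAddCommGroup K] [InnerProductSpace ℂ K] [CompleteSpace K]
  {U : ℝ → H →L[ℂ] H} {κ : (H →L[ℂ] H) →⋆ₐ[ℂ] (K →L[ℂ] K)} {e S : ℝ → K →L[ℂ] K}
  {W : K →L[ℂ] K} {J : ℝ → H →L[ℂ] K} {E : ℝ → ℂ → K →L[ℂ] K}

/-- Bessel for finitely many pairwise orthogonal projections -/
theorem bessel_proj {ι : Type} (s : Finset ι) (P : ι → K →L[ℂ] K) (hs : ∀ i ∈ s, star (P i) = P i)
    (hi : ∀ i ∈ s, P i * P i = P i) (ho : ∀ i ∈ s, ∀ j ∈ s, i ≠ j → P i * P j = 0) (u : K) :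
    ∑ i ∈ s, ‖P i u‖ ^ 2 ≤ ‖u‖ ^ 2 := by
  classical
  set Q : K →L[ℂ] K := ∑ i ∈ s, P i with hQ
  have hQQ : Q * Q = Q := by
    rw [hQ, Finset.sum_mul_sum]
    refine Finset.sum_congr rfl fun i hi' => ?_
    rw [Finset.sum_eq_single i]
    · exact hi i hi'
    · intro j hj hji
      exact ho i hi' j hj (Ne.symm hji)
    · intro h; exact absurd hi' h
  have hQs : star Q = Q := by
    rw [hQ, star_sum]
    exact Finset.sum_congr rfl hs
  have h1 : ∀ T : K →L[ℂ] K, star T = T → T * T = T → ((‖T u‖ ^ 2 : ℝ) : ℂ) = ⟪u, T u⟫_ℂ := by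
    intro T hT hTT
    have h2 : ⟪T u, T u⟫_ℂ = ⟪u, T u⟫_ℂ := by
      rw [← ContinuousLinearMap.adjoint_inner_right T u (T u), ← ContinuousLinearMap.star_eq_adjoint, hT,
        ← mul_ap, hTT]
    rw [← h2, inner_self_eq_norm_sq_to_K]
    norm_cast
  have h3 : ((∑ i ∈ s, ‖P i u‖ ^ 2 : ℝ) : ℂ) = ((‖Q u‖ ^ 2 : ℝ) : ℂ) := by
    rw [h1 Q hQs hQQ, hQ, sum_apply, inner_sum, Complex.ofReal_sum]
    exact Finset.sum_congr rfl fun i hi' => h1 (P i) (hs i hi') (hi i hi')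
  have h4 : ∑ i ∈ s, ‖P i u‖ ^ 2 = ‖Q u‖ ^ 2 := by exact_mod_cast h3
  rw [h4]
  have h5 : ‖Q u‖ ^ 2 ≤ ‖u‖ * ‖Q u‖ := by
    have h6 := h1 Q hQs hQQ
    have h7 : ‖((‖Q u‖ ^ 2 : ℝ) : ℂ)‖ ≤ ‖u‖ * ‖Q u‖ := by
      rw [h6]; exact norm_inner_le_norm _ _
    rwa [Complex.norm_real, Real.norm_of_nonneg (by positivity)] at h7
  have h8 := norm_nonneg (Q u)
  have h9 := norm_nonneg u
  nlinarith [sq_nonneg (‖u‖ - ‖Q u‖)]

theorem cont_S (F : Frame U κ e S W J E) {g : ℝ → K} (hg : Continuous g) :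
    Continuous fun p : ℝ => S p (g p) := by
  rw [continuous_iff_continuousAt]
  intro p
  unfold ContinuousAt
  have h1 : Tendsto (fun q : ℝ => S q (g q - g p)) (𝓝 p) (𝓝 0) := by
    rw [tendsto_zero_iff_norm_tendsto_zero]
    have h2 : Tendsto (fun q : ℝ => ‖g q - g p‖) (𝓝 p) (𝓝 0) := by
      have h3 := (hg.tendsto p).sub_const (g p)
      rw [sub_self] at h3
      exact tendsto_zero_iff_norm_tendsto_zero.1 h3
    exact h2.congr fun q => (S_norm F q _).symm
  have h4 : Tendsto (fun q : ℝ => S q (g p)) (𝓝 p) (𝓝 (S p (g p))) := (F.S_cont (g p)).tendsto p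
  have h5 := h1.add h4
  rw [zero_add] at h5
  refine h5.congr fun q => ?_
  rw [← map_add, sub_add_cancel]

theorem box_shift (F : Frame U κ e S W J E) (a r p : ℝ) (u : K) :
    ‖bx S E a r (S (-p) u)‖ = ‖bx S E (p + a) r u‖ := by
  rw [← S_bx F p a r, mul_ap, mul_ap, S_norm F]

/-- the integral of the box norms along the orbit -/
theorem box_int (F : Frame U κ e S W J E) (a : ℝ) {r : ℝ} (hr : 0 < r) (u : K) :
    Integrable (fun p : ℝ => ‖bx S E a r (S (-p) u)‖ ^ 2) ∧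
      ∫ p : ℝ, ‖bx S E a r (S (-p) u)‖ ^ 2 ≤ r * ‖u‖ ^ 2 := by
  have hcont : Continuous (fun p : ℝ => ‖bx S E a r (S (-p) u)‖ ^ 2) := by
    have h1 : Continuous fun p : ℝ => S (-p) u := (F.S_cont u).comp continuous_neg
    exact (((bx S E a r).continuous.comp h1).norm).pow 2
  have hle : ∀ n : ℕ, ∫ p in (-(n * r))..(n * r), ‖bx S E a r (S (-p) u)‖ ^ 2 ≤ r * ‖u‖ ^ 2 := by
    intro n
    have h1 : ∫ p in (-(n * r))..(n * r), ‖bx S E a r (S (-p) u)‖ ^ 2 =
        ∑ k ∈ Finset.range (2 * n), ∫ p in (-(n * r) + k * r)..(-(n * r) + (k + 1 : ℕ) * r),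
          ‖bx S E a r (S (-p) u)‖ ^ 2 := by
      have h2 := intervalIntegral.sum_integral_adjacent_intervals (μ := volume)
        (f := fun p : ℝ => ‖bx S E a r (S (-p) u)‖ ^ 2)
        (a := fun k : ℕ => -(n * r) + k * r) (n := 2 * n)
        (fun k _ => hcont.intervalIntegrable _ _)
      rw [h2]
      congr 1
      · push_cast; ring
      · push_cast; ring
    have h3 : ∀ k ∈ Finset.range (2 * n),
        ∫ p in (-(n * r) + k * r)..(-(n * r) + (k + 1 : ℕ) * r), ‖bx S E a r (S (-p) u)‖ ^ 2 =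
        ∫ p in (0 : ℝ)..r, ‖bx S E (p + (a + (-(n * r) + k * r))) r u‖ ^ 2 := by
      intro k _
      have h4 := intervalIntegral.integral_comp_add_right (a := 0) (b := r)
        (fun p : ℝ => ‖bx S E a r (S (-p) u)‖ ^ 2) (-(n * r) + k * r)
      have h5 : (0 : ℝ) + (-(n * r) + k * r) = -(n * r) + k * r := by ring
      have h6 : r + (-(n * r) + k * r) = -(n * r) + (k + 1 : ℕ) * r := by push_cast; ring
      rw [h5, h6] at h4
      rw [← h4]
      refine intervalIntegral.integral_congr fun p _ => ?_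
      rw [box_shift F]
      have h7 : p + (-(n * r) + k * r) + a = p + (a + (-(n * r) + k * r)) := by ring
      rw [h7]
    rw [h1, Finset.sum_congr rfl h3]
    have hc2 : ∀ k : ℕ, Continuous (fun p : ℝ => ‖bx S E (p + (a + (-(n * r) + k * r))) r u‖ ^ 2) := by
      intro k
      have h7 : (fun p : ℝ => ‖bx S E (p + (a + (-(n * r) + k * r))) r u‖ ^ 2) =
          fun p : ℝ => ‖bx S E (a + (-(n * r) + k * r)) r (S (-p) u)‖ ^ 2 := by
        funext p
        rw [box_shift F]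
      rw [h7]
      have h1 : Continuous fun p : ℝ => S (-p) u := (F.S_cont u).comp continuous_neg
      exact (((bx S E _ r).continuous.comp h1).norm).pow 2
    rw [← intervalIntegral.integral_finsetSum fun k _ => (hc2 k).intervalIntegrable _ _]
    have h8 : ∫ p in (0 : ℝ)..r, ∑ k ∈ Finset.range (2 * n),
        ‖bx S E (p + (a + (-(n * r) + k * r))) r u‖ ^ 2 ≤ ∫ p in (0 : ℝ)..r, ‖u‖ ^ 2 := by
      refine intervalIntegral.integral_mono_on hr.le
        ((continuous_finsetSum _ fun k _ => hc2 k).intervalIntegrable _ _)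
        (continuous_const.intervalIntegrable _ _) fun p _ => ?_
      refine bessel_proj (Finset.range (2 * n)) (fun k : ℕ => bx S E (p + (a + (-(n * r) + k * r))) r)
        (fun k _ => bx_sa F hr _) (fun k _ => bx_idem F hr _) (fun i _ j _ hij => ?_) u
      rcases lt_or_gt_of_ne hij with h | h
      · refine F.box_orth _ _ _ _ hr hr ?_
        have h9 : (i : ℝ) + 1 ≤ j := by exact_mod_cast h
        nlinarith
      · have h9 : (j : ℝ) + 1 ≤ i := by exact_mod_cast h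
        have h10 := F.box_orth (p + (a + (-(n * r) + j * r))) (p + (a + (-(n * r) + i * r))) r r hr hr
          (by nlinarith)
        have h11 := congrArg star h10
        rw [star_mul, bx_sa F hr, bx_sa F hr, star_zero] at h11
        exact h11
    refine h8.trans (le_of_eq ?_)
    rw [intervalIntegral.integral_const, smul_eq_mul, sub_zero]
  have hint : Integrable (fun p : ℝ => ‖bx S E a r (S (-p) u)‖ ^ 2) := by
    refine integrable_of_intervalIntegral_norm_bounded (l := atTop) (a := fun n : ℕ => -(n * r))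
      (b := fun n : ℕ => (n * r : ℝ)) (r * ‖u‖ ^ 2) (fun n => ?_) ?_ ?_ ?_
    · exact (hcont.integrableOn_Icc).mono_set Set.Ioc_subset_Icc_self
    · exact tendsto_neg_atTop_atBot.comp (tendsto_natCast_atTop_atTop.atTop_mul_const hr)
    · exact tendsto_natCast_atTop_atTop.atTop_mul_const hr
    · refine Eventually.of_forall fun n => ?_
      refine le_trans (le_of_eq ?_) (hle n)
      refine intervalIntegral.integral_congr fun p _ => ?_
      change ‖‖bx S E a r (S (-p) u)‖ ^ 2‖ = _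
      rw [Real.norm_of_nonneg (by positivity)]
  refine ⟨hint, ?_⟩
  have h1 := intervalIntegral_tendsto_integral hint
    (tendsto_neg_atTop_atBot.comp (tendsto_natCast_atTop_atTop.atTop_mul_const hr) :
      Tendsto (fun n : ℕ => -((n : ℝ) * r)) atTop atBot)
    (tendsto_natCast_atTop_atTop.atTop_mul_const hr : Tendsto (fun n : ℕ => (n : ℝ) * r) atTop atTop)
  exact le_of_tendsto h1 (Eventually.of_forall hle)

/-- the coefficient functions of the orbit -/
def cof (S : ℝ → K →L[ℂ] K) (Z : K →L[ℂ] K) (v w : K) (p : ℝ) : ℂ := ⟪S p (Z (S (-p) v)), w⟫_ℂ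

theorem cof_cont (F : Frame U κ e S W J E) (Z : K →L[ℂ] K) (v w : K) : Continuous (cof S Z v w) := by
  have h1 : Continuous fun p : ℝ => S (-p) v := (F.S_cont v).comp continuous_neg
  exact (cont_S F (Z.continuous.comp h1)).inner continuous_const

theorem cof_le (F : Frame U κ e S W J E) {a r : ℝ} (hr : 0 < r) {Z : K →L[ℂ] K}
    (hZ : bx S E a r * Z * bx S E a r = Z) (v w : K) (p : ℝ) :
    ‖cof S Z v w p‖ ≤ ‖Z‖ * (‖bx S E a r (S (-p) v)‖ * ‖bx S E a r (S (-p) w)‖) := by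
  have h1 : cof S Z v w p = ⟪Z (bx S E a r (S (-p) v)), bx S E a r (S (-p) w)⟫_ℂ := by
    unfold cof
    have h2 : S p (Z (S (-p) v)) = S p (bx S E a r (Z (bx S E a r (S (-p) v)))) := by
      conv_lhs => rw [← hZ]
      rfl
    rw [h2, ← ContinuousLinearMap.adjoint_inner_right (S p), ← ContinuousLinearMap.star_eq_adjoint,
      F.S_star, ← ContinuousLinearMap.adjoint_inner_right (bx S E a r),
      ← ContinuousLinearMap.star_eq_adjoint, bx_sa F hr]
  rw [h1]
  calc ‖⟪Z (bx S E a r (S (-p) v)), bx S E a r (S (-p) w)⟫_ℂ‖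
      ≤ ‖Z (bx S E a r (S (-p) v))‖ * ‖bx S E a r (S (-p) w)‖ := norm_inner_le_norm _ _
    _ ≤ (‖Z‖ * ‖bx S E a r (S (-p) v)‖) * ‖bx S E a r (S (-p) w)‖ :=
        mul_le_mul_of_nonneg_right (Z.le_opNorm _) (norm_nonneg _)
    _ = _ := by ring

theorem cof_int (F : Frame U κ e S W J E) {a r : ℝ} (hr : 0 < r) {Z : K →L[ℂ] K}
    (hZ : bx S E a r * Z * bx S E a r = Z) (v w : K) :
    Integrable (cof S Z v w) ∧ ∫ p : ℝ, ‖cof S Z v w p‖ ≤ ‖Z‖ * r * (‖v‖ ^ 2 + ‖w‖ ^ 2) / 2 := by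
  obtain ⟨hv, hv'⟩ := box_int F a hr v
  obtain ⟨hw, hw'⟩ := box_int F a hr w
  have hb : ∀ p : ℝ, ‖cof S Z v w p‖ ≤
      ‖Z‖ / 2 * (‖bx S E a r (S (-p) v)‖ ^ 2 + ‖bx S E a r (S (-p) w)‖ ^ 2) := by
    intro p
    refine (cof_le F hr hZ v w p).trans ?_
    have h1 := two_mul_le_add_sq (‖bx S E a r (S (-p) v)‖) (‖bx S E a r (S (-p) w)‖)
    have h2 := norm_nonneg Z
    nlinarith
  have hg : Integrable (fun p : ℝ =>
      ‖Z‖ / 2 * (‖bx S E a r (S (-p) v)‖ ^ 2 + ‖bx S E a r (S (-p) w)‖ ^ 2)) :=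
    (hv.add hw).const_mul _
  have hi : Integrable (cof S Z v w) :=
    hg.mono' (cof_cont F Z v w).aestronglyMeasurable (Eventually.of_forall hb)
  refine ⟨hi, ?_⟩
  calc ∫ p : ℝ, ‖cof S Z v w p‖ ≤ ∫ p : ℝ,
        ‖Z‖ / 2 * (‖bx S E a r (S (-p) v)‖ ^ 2 + ‖bx S E a r (S (-p) w)‖ ^ 2) :=
        integral_mono hi.norm hg hb
    _ = ‖Z‖ / 2 * ((∫ p : ℝ, ‖bx S E a r (S (-p) v)‖ ^ 2) + ∫ p : ℝ, ‖bx S E a r (S (-p) w)‖ ^ 2) := by
        rw [integral_const_mul, integral_add hv hw]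
    _ ≤ ‖Z‖ / 2 * (r * ‖v‖ ^ 2 + r * ‖w‖ ^ 2) :=
        mul_le_mul_of_nonneg_left (add_le_add hv' hw') (by positivity)
    _ = _ := by ring

/-- the Fourier phase -/
def ph (t p : ℝ) : ℂ := Complex.exp (-(2 * Real.pi * I * t * p))

theorem ph_norm (t p : ℝ) : ‖ph t p‖ = 1 := by
  unfold ph
  have h1 : -(2 * (Real.pi : ℂ) * I * t * p) = ((-(2 * Real.pi * t * p) : ℝ) : ℂ) * I := by
    push_cast; ring
  rw [h1, Complex.norm_exp_ofReal_mul_I]

theorem ph_cont (t : ℝ) : Continuous (ph t) := by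
  unfold ph
  fun_prop

theorem phcof_int (F : Frame U κ e S W J E) {a r : ℝ} (hr : 0 < r) {Z : K →L[ℂ] K}
    (hZ : bx S E a r * Z * bx S E a r = Z) (t : ℝ) (v w : K) :
    Integrable (fun p : ℝ => ph t p * cof S Z v w p) := by
  refine (cof_int F hr hZ v w).1.norm.mono'
    ((ph_cont t).mul (cof_cont F Z v w)).aestronglyMeasurable (Eventually.of_forall fun p => ?_)
  rw [norm_mul, ph_norm, one_mul]

theorem cof_bound (F : Frame U κ e S W J E) {a r : ℝ} (hr : 0 < r) {Z : K →L[ℂ] K}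
    (hZ : bx S E a r * Z * bx S E a r = Z) (t : ℝ) (v w : K) :
    ‖∫ p : ℝ, ph t p * cof S Z v w p‖ ≤ ‖Z‖ * r * ‖v‖ * ‖w‖ := by
  have hgen : ∀ v w : K, ‖∫ p : ℝ, ph t p * cof S Z v w p‖ ≤ ‖Z‖ * r * (‖v‖ ^ 2 + ‖w‖ ^ 2) / 2 := by
    intro v w
    refine (norm_integral_le_integral_norm _).trans (le_trans (le_of_eq ?_) (cof_int F hr hZ v w).2)
    congr 1
    funext p
    rw [norm_mul, ph_norm, one_mul]
  by_cases hv : v = 0
  · subst hv
    have : ∀ p : ℝ, ph t p * cof S Z 0 w p = 0 := fun p => by simp [cof]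
    simp [this]
  by_cases hw : w = 0
  · subst hw
    have : ∀ p : ℝ, ph t p * cof S Z v 0 p = 0 := fun p => by simp [cof]
    simp [this]
  have hv0 : 0 < ‖v‖ := norm_pos_iff.2 hv
  have hw0 : 0 < ‖w‖ := norm_pos_iff.2 hw
  have h1 := hgen (((‖v‖⁻¹ : ℝ) : ℂ) • v) (((‖w‖⁻¹ : ℝ) : ℂ) • w)
  have h2 : ∀ p : ℝ, ph t p * cof S Z (((‖v‖⁻¹ : ℝ) : ℂ) • v) (((‖w‖⁻¹ : ℝ) : ℂ) • w) p =
      ((‖v‖⁻¹ * ‖w‖⁻¹ : ℝ) : ℂ) * (ph t p * cof S Z v w p) := by
    intro p
    unfold cof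
    rw [map_smul, map_smul, map_smul, inner_smul_left, inner_smul_right, Complex.conj_ofReal]
    push_cast
    ring
  simp only [h2] at h1
  rw [integral_const_mul, norm_mul, Complex.norm_real, Real.norm_of_nonneg (by positivity), norm_smul,
    norm_smul, Complex.norm_real, Complex.norm_real, Real.norm_of_nonneg (by positivity),
    Real.norm_of_nonneg (by positivity), inv_mul_cancel₀ hv0.ne', inv_mul_cancel₀ hw0.ne'] at h1
  have h3 : ‖v‖⁻¹ * ‖w‖⁻¹ * ‖∫ p : ℝ, ph t p * cof S Z v w p‖ ≤ ‖Z‖ * r := by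
    refine h1.trans (le_of_eq ?_)
    ring
  calc ‖∫ p : ℝ, ph t p * cof S Z v w p‖
      = (‖v‖ * ‖w‖) * (‖v‖⁻¹ * ‖w‖⁻¹ * ‖∫ p : ℝ, ph t p * cof S Z v w p‖) := by
        field_simp
    _ ≤ (‖v‖ * ‖w‖) * (‖Z‖ * r) := mul_le_mul_of_nonneg_left h3 (by positivity)
    _ = _ := by ring

/-- the weak integral `G_t = ∫ e^{2πitp} S_p Z S_{-p} dp` -/
theorem exists_G (F : Frame U κ e S W J E) {a r : ℝ} (hr : 0 < r) {Z : K →L[ℂ] K}
    (hZ : bx S E a r * Z * bx S E a r = Z) (t : ℝ) :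
    ∃ G : K →L[ℂ] K, ∀ v w : K, ⟪G v, w⟫_ℂ = ∫ p : ℝ, ph t p * cof S Z v w p := by
  let B : K →ₗ⋆[ℂ] K →ₗ[ℂ] ℂ := LinearMap.mk₂'ₛₗ (starRingEnd ℂ) (RingHom.id ℂ)
    (fun v w => ∫ p : ℝ, ph t p * cof S Z v w p)
    (fun v v' w => by
      rw [← integral_add (phcof_int F hr hZ t v w) (phcof_int F hr hZ t v' w)]
      congr 1
      funext p
      unfold cof
      rw [map_add, map_add, map_add, inner_add_left]
      ring)
    (fun c v w => by
      rw [smul_eq_mul, ← integral_const_mul]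
      congr 1
      funext p
      unfold cof
      rw [map_smul, map_smul, map_smul, inner_smul_left]
      ring)
    (fun v w w' => by
      rw [← integral_add (phcof_int F hr hZ t v w) (phcof_int F hr hZ t v w')]
      congr 1
      funext p
      unfold cof
      rw [inner_add_right]
      ring)
    (fun c v w => by
      rw [RingHom.id_apply, smul_eq_mul, ← integral_const_mul]
      congr 1
      funext p
      unfold cof
      rw [inner_smul_right]
      ring)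
  let B' : K →L⋆[ℂ] K →L[ℂ] ℂ := B.mkContinuous₂ (‖Z‖ * r) fun v w => cof_bound F hr hZ t v w
  refine ⟨InnerProductSpace.continuousLinearMapOfBilin B', fun v w => ?_⟩
  rw [InnerProductSpace.continuousLinearMapOfBilin_apply]
  rfl

end

end Pool.Agent.Lead.BCB
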