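import Pool.Agent.Lead.BCB.DT
import Pool.Agent.H75.L.W196.WD.CPT

/-!
Phase B (lead): a nonzero intertwiner between the implementing group of a weight with `λψ ∼ ψ` for all `λ` and the
implementing group of the dominant weight of the frame, as a weak limit of step functions of eigenoperators.
-/

set_option autoImplicit false

open MeasureTheory Filter Topology Complex
open scoped InnerProductSpace ENNReal

namespace Pool.Agent.Lead.BCB

open Pool.Agent.W662.CB Pool.Agent.H75.BC Pool.Agent.H75.BC.FB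

noncomputable section

variable {H : Type} [NormedAddCommGroup H] [InnerProductSpace ℂ H] [CompleteSpace H]
  {K : Type} [NormedAddCommGroup K] [InnerProductSpace ℂ K] [CompleteSpace K]
  {U : ℝ → H →L[ℂ] H} {κ : (H →L[ℂ] H) →⋆ₐ[ℂ] (K →L[ℂ] K)} {e S : ℝ → K →L[ℂ] K}
  {W : K →L[ℂ] K} {J : ℝ → H →L[ℂ] K} {E : ℝ → ℂ → K →L[ℂ] K}

/-- the norm of an orthogonal sum -/
theorem norm_sum_orth {ι : Type} (s : Finset ι) (y : ι → K)
    (ho : ∀ i ∈ s, ∀ j ∈ s, i ≠ j → ⟪y i, y j⟫_ℂ = 0) :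
    ‖∑ i ∈ s, y i‖ ^ 2 = ∑ i ∈ s, ‖y i‖ ^ 2 := by
  classical
  have h1 : ⟪∑ i ∈ s, y i, ∑ i ∈ s, y i⟫_ℂ = ∑ i ∈ s, ⟪y i, y i⟫_ℂ := by
    rw [sum_inner]
    refine Finset.sum_congr rfl fun i hi => ?_
    rw [inner_sum, Finset.sum_eq_single i]
    · intro j hj hji
      exact ho i hi j hj (Ne.symm hji)
    · intro h; exact absurd hi h
  have h2 : ∀ z : K, ⟪z, z⟫_ℂ = ((‖z‖ ^ 2 : ℝ) : ℂ) := fun z => by
    rw [inner_self_eq_norm_sq_to_K]; norm_cast
  rw [Finset.sum_congr rfl (fun i _ => h2 (y i)), h2, ← Complex.ofReal_sum] at h1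
  exact Complex.ofReal_injective h1

/-- the step operators -/
def stp (S : ℝ → K →L[ℂ] K) (J : ℝ → H →L[ℂ] K) (α r : ℝ) (n : ℕ) (x : ℕ → H →L[ℂ] H) : H →L[ℂ] K :=
  ∑ j ∈ Finset.range n, (((Real.sqrt n)⁻¹ : ℝ) : ℂ) • ((S (-(α + (j + 1) * r))).comp ((J r).comp (x j)))

theorem stp_apply (α r : ℝ) (n : ℕ) (x : ℕ → H →L[ℂ] H) (v : H) :
    stp S J α r n x v = ∑ j ∈ Finset.range n,
      (((Real.sqrt n)⁻¹ : ℝ) : ℂ) • S (-(α + (j + 1) * r)) (J r (x j v)) := by
  unfold stp
  rw [sum_apply]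
  rfl

theorem stp_orth (F : Frame U κ e S W J E) (α : ℝ) {r : ℝ} (hr : 0 < r) (c : ℂ) (v : ℕ → H) :
    ∀ i j : ℕ, i ≠ j → ⟪c • S (-(α + (i + 1) * r)) (J r (v i)),
      c • S (-(α + (j + 1) * r)) (J r (v j))⟫_ℂ = 0 := by
  intro i j hij
  have h1 : ∀ i : ℕ, S (-(α + (i + 1) * r)) (J r (v i)) =
      bx S E (-(α + (i + 1) * r)) r (S (-(α + (i + 1) * r)) (J r (v i))) := fun i =>
    (bx_J F hr _ _).symm
  have h2 : bx S E (-(α + (i + 1) * r)) r * bx S E (-(α + (j + 1) * r)) r = 0 := by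
    rcases lt_or_gt_of_ne hij with h | h
    · have h9 : (i : ℝ) + 1 ≤ j := by exact_mod_cast h
      have h10 := F.box_orth (-(α + (j + 1) * r)) (-(α + (i + 1) * r)) r r hr hr (by nlinarith)
      have h11 := congrArg star h10
      rw [star_mul, bx_sa F hr, bx_sa F hr, star_zero] at h11
      exact h11
    · have h9 : (j : ℝ) + 1 ≤ i := by exact_mod_cast h
      exact F.box_orth _ _ _ _ hr hr (by nlinarith)
  rw [inner_smul_left, inner_smul_right, h1 i, h1 j,
    ← ContinuousLinearMap.adjoint_inner_right (bx S E (-(α + (i + 1) * r)) r),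
    ← ContinuousLinearMap.star_eq_adjoint, bx_sa F hr, ← mul_ap, h2]
  simp

theorem stp_norm (F : Frame U κ e S W J E) (α : ℝ) {r : ℝ} (hr : 0 < r) {n : ℕ} (hn : 0 < n)
    (x : ℕ → H →L[ℂ] H) (hx : ∀ j < n, ‖x j‖ ≤ 1) (v : H) : ‖stp S J α r n x v‖ ≤ ‖v‖ := by
  have hn' : (0 : ℝ) < n := Nat.cast_pos.2 hn
  rw [stp_apply]
  have h1 := norm_sum_orth (Finset.range n)
    (fun j : ℕ => (((Real.sqrt n)⁻¹ : ℝ) : ℂ) • S (-(α + (j + 1) * r)) (J r (x j v)))
    (fun i _ j _ hij => stp_orth F α hr _ (fun j => x j v) i j hij)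
  have h2 : ∑ j ∈ Finset.range n,
      ‖(((Real.sqrt n)⁻¹ : ℝ) : ℂ) • S (-(α + (j + 1) * r)) (J r (x j v))‖ ^ 2 ≤ ‖v‖ ^ 2 := by
    calc ∑ j ∈ Finset.range n,
        ‖(((Real.sqrt n)⁻¹ : ℝ) : ℂ) • S (-(α + (j + 1) * r)) (J r (x j v))‖ ^ 2
        ≤ ∑ j ∈ Finset.range n, (n : ℝ)⁻¹ * ‖v‖ ^ 2 := by
          refine Finset.sum_le_sum fun j hj => ?_
          rw [norm_smul, Complex.norm_real, Real.norm_of_nonneg (by positivity), S_norm F, J_norm F hr,
            mul_pow, inv_pow, Real.sq_sqrt hn'.le]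
          refine mul_le_mul_of_nonneg_left ?_ (by positivity)
          have h3 : ‖x j v‖ ≤ ‖v‖ := by
            have := (x j).le_of_opNorm_le (hx j (Finset.mem_range.1 hj)) v
            rwa [one_mul] at this
          exact pow_le_pow_left₀ (norm_nonneg _) h3 2
      _ = ‖v‖ ^ 2 := by
          rw [Finset.sum_const, Finset.card_range, nsmul_eq_mul]
          field_simp
  rw [← h1] at h2
  exact (sq_le_sq₀ (norm_nonneg _) (norm_nonneg _)).1 h2

/-- the constant step operator does not depend on the subdivision -/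
theorem stp_const (F : Frame U κ e S W J E) (α : ℝ) {β : ℝ} (hαβ : α < β) {n : ℕ} (hn : 0 < n) (η : H) :
    S (-β) (J (β - α) η) = ∑ j ∈ Finset.range n,
      (((Real.sqrt n)⁻¹ : ℝ) : ℂ) • S (-(α + (j + 1) * ((β - α) / n))) (J ((β - α) / n) η) := by
  have hn' : (0 : ℝ) < n := Nat.cast_pos.2 hn
  have hd : 0 < β - α := sub_pos.2 hαβ
  have hr : 0 < (β - α) / n := div_pos hd hn'
  set r := (β - α) / n with hrdef
  have h1 : J (β - α) η = ∑ k ∈ Finset.range n, bx S E (k * r) r (J (β - α) η) := by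
    conv_lhs => rw [← F.E_J (β - α) η hd, F.box_sum (β - α) n hd hn]
    rw [sum_apply]
  rw [h1, map_sum, ← Finset.sum_range_reflect (fun j : ℕ =>
    (((Real.sqrt n)⁻¹ : ℝ) : ℂ) • S (-(α + (j + 1) * r)) (J r η))]
  refine Finset.sum_congr rfl fun k hk => ?_
  have hk' : (k : ℝ) + 1 ≤ n := by exact_mod_cast Finset.mem_range.1 hk
  rw [F.box_J (k * r) r (β - α) η hr (by positivity) (by
    have h3 : (k : ℝ) * r + r = (k + 1) * r := by ring
    rw [h3]
    calc ((k : ℝ) + 1) * r ≤ n * r := mul_le_mul_of_nonneg_right hk' hr.le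
      _ = β - α := by rw [hrdef]; field_simp), map_smul]
  have h4 : Real.sqrt (r / (β - α)) = (Real.sqrt n)⁻¹ := by
    rw [← Real.sqrt_inv]
    congr 1
    rw [hrdef]
    field_simp
  rw [h4]
  congr 1
  rw [← mul_ap, ← F.S_add]
  have h5 : ((n - 1 - k : ℕ) : ℝ) = n - 1 - k := by
    have : k + 1 ≤ n := Finset.mem_range.1 hk
    rw [Nat.sub_sub, Nat.cast_sub (by omega)]
    push_cast
    ring
  rw [h5]
  congr 2
  have h6 : (n : ℝ) * r = β - α := by rw [hrdef]; field_simp
  linarith [h6, show (α + ((n : ℝ) - 1 - k + 1) * r) = α + n * r - k * r by ring]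

/-- a nonzero intertwiner -/
theorem exists_T (F : Frame U κ e S W J E) (N : VonNeumannAlgebra H) (G : ℝ → H →L[ℂ] H)
    (hG1 : ∀ t : ℝ, ‖G t‖ ≤ 1)
    (Q : K →L[ℂ] K) (hQ : ∀ f : K, ‖Q f‖ = ‖f‖)
    (hQV : ∀ t : ℝ, (e t * κ (U t)) * Q = Q * (κ (G t) * e t))
    (hQc : ∀ y' : H →L[ℂ] H, y' ∈ N.commutant → Q * κ y' = κ y' * Q)
    {α β : ℝ} (hαβ : α < β) (η v : H)
    (hx : ∀ s ∈ Set.Icc α β, ∃ x : H →L[ℂ] H, x ∈ N ∧ ‖x‖ ≤ 1 ∧
      (∀ t : ℝ, G t * x = Complex.exp (2 * Real.pi * I * s * t) • (x * G t)) ∧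
      1 / 4 ≤ (⟪η, x v⟫_ℂ).re) :
    ∃ T : H →L[ℂ] K, (∀ y' : H →L[ℂ] H, y' ∈ N.commutant → T.comp y' = (κ y').comp T) ∧
      (∀ t : ℝ, T.comp (G t) = (e t * κ (U t)).comp T) ∧ T v ≠ 0 := by
  classical
  have hd : 0 < β - α := sub_pos.2 hαβ
  choose! x hxN hx1 hxe hxη using hx
  -- the data
  set r : ℕ → ℝ := fun n => (β - α) / (n + 1 : ℕ) with hr
  have hr0 : ∀ n, 0 < r n := fun n => div_pos hd (Nat.cast_pos.2 (Nat.succ_pos n))
  set y : ℕ → ℕ → H →L[ℂ] H := fun n j => x (α + (j + 1) * r n) with hy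
  have hin : ∀ n j : ℕ, j < n + 1 → α + (j + 1) * r n ∈ Set.Icc α β := by
    intro n j hj
    have hj' : (j : ℝ) + 1 ≤ (n + 1 : ℕ) := by exact_mod_cast hj
    refine ⟨by have := hr0 n; nlinarith [show (0 : ℝ) ≤ j from Nat.cast_nonneg j], ?_⟩
    have h1 : ((j : ℝ) + 1) * r n ≤ (n + 1 : ℕ) * r n := mul_le_mul_of_nonneg_right hj' (hr0 n).le
    have h2 : ((n + 1 : ℕ) : ℝ) * r n = β - α := by
      rw [hr]
      have : ((n + 1 : ℕ) : ℝ) ≠ 0 := by positivity
      field_simp
    linarith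
  set R : ℕ → H →L[ℂ] K := fun n => stp S J α (r n) (n + 1) (y n) with hR
  have hRn : ∀ n (u : H), ‖R n u‖ ≤ ‖u‖ := fun n u =>
    stp_norm F α (hr0 n) (Nat.succ_pos n) (y n) (fun j hj => hx1 _ (hin n j hj)) u
  -- weak limit
  let Uf : Ultrafilter ℕ := Filter.hyperfilter ℕ
  have hUf : (Uf : Filter ℕ) ≤ atTop := by
    rw [← Nat.cofinite_eq_atTop]
    exact Filter.hyperfilter_le_cofinite
  obtain ⟨Y, -, hY⟩ := Pool.Agent.W196.WD.exists_wlim Uf
    (fun n => (Q.comp (R n)).comp (ContinuousLinearMap.adjoint (J 1))) 1 (fun n => by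
      refine ContinuousLinearMap.opNorm_le_bound _ zero_le_one fun f => ?_
      rw [one_mul]
      calc ‖Q (R n (ContinuousLinearMap.adjoint (J 1) f))‖
          = ‖R n (ContinuousLinearMap.adjoint (J 1) f)‖ := hQ _
        _ ≤ ‖ContinuousLinearMap.adjoint (J 1) f‖ := hRn n _
        _ ≤ ‖f‖ := Ja_norm F one_pos f)
  set T : H →L[ℂ] K := Y.comp (J 1) with hT
  have hlim : ∀ (u : H) (a : K), Tendsto (fun n => ⟪a, Q (R n u)⟫_ℂ) (Uf : Filter ℕ) (𝓝 ⟪a, T u⟫_ℂ) := by
    intro u a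
    refine (hY (J 1 u) a).congr fun n => ?_
    show ⟪a, Q (R n (ContinuousLinearMap.adjoint (J 1) (J 1 u)))⟫_ℂ = _
    rw [F.J_iso 1 u one_pos]
  refine ⟨T, fun y' hy' => ?_, fun t => ?_, ?_⟩
  · -- commutation with `N'`
    ext u
    refine ext_inner_left ℂ fun a => ?_
    have h1 := hlim (y' u) a
    have h2 := hlim u (star (κ y') a)
    rw [ContinuousLinearMap.star_eq_adjoint, ContinuousLinearMap.adjoint_inner_left] at h2
    refine tendsto_nhds_unique h1 (h2.congr fun n => ?_)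
    rw [ContinuousLinearMap.adjoint_inner_left]
    congr 1
    have h3 : κ y' (Q (R n u)) = Q (κ y' (R n u)) := by
      rw [← mul_ap, ← hQc y' hy', mul_ap]
    rw [h3]
    congr 1
    simp only [hR, stp_apply, map_sum, map_smul]
    refine Finset.sum_congr rfl fun j hj => ?_
    congr 1
    have h4 : y n j (y' u) = y' (y n j u) := by
      have h5 := (VonNeumannAlgebra.mem_commutant_iff.1 hy') _ (hxN _ (hin n j (Finset.mem_range.1 hj)))
      exact congrArg (fun X : H →L[ℂ] H => X u) h5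
    rw [h4, ← mul_ap (κ y'), F.κ_S, mul_ap, F.κ_J _ _ _ (hr0 n)]
  · -- the eigen relation
    ext u
    refine ext_inner_left ℂ fun a => ?_
    have h1 := hlim (G t u) a
    have h2 := hlim u (star (e t * κ (U t)) a)
    rw [ContinuousLinearMap.star_eq_adjoint, ContinuousLinearMap.adjoint_inner_left] at h2
    have h3 : Tendsto (fun n => ⟪a, Q (R n (G t u))⟫_ℂ -
        ⟪ContinuousLinearMap.adjoint (e t * κ (U t)) a, Q (R n u)⟫_ℂ) (Uf : Filter ℕ) (𝓝 0) := by
      refine Tendsto.mono_left ?_ hUf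
      rw [tendsto_zero_iff_norm_tendsto_zero]
      -- the bound
      have hb : ∀ n : ℕ, ‖⟪a, Q (R n (G t u))⟫_ℂ -
          ⟪ContinuousLinearMap.adjoint (e t * κ (U t)) a, Q (R n u)⟫_ℂ‖ ≤
          ‖a‖ * (Real.sqrt (n + 1 : ℕ) * (Real.exp (2 * Real.pi * |t| * r n) - 1) * ‖u‖) := by
        intro n
        rw [ContinuousLinearMap.adjoint_inner_left]
        have h4 : (e t * κ (U t)) (Q (R n u)) = Q ((κ (G t) * e t) (R n u)) := by
          rw [← mul_ap, hQV, mul_ap]
        rw [h4, ← inner_sub_right, ← map_sub]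
        refine (norm_inner_le_norm _ _).trans (mul_le_mul_of_nonneg_left ?_ (norm_nonneg _))
        rw [hQ]
        have h5 : R n (G t u) - (κ (G t) * e t) (R n u) = ∑ j ∈ Finset.range (n + 1),
            (((Real.sqrt (n + 1 : ℕ))⁻¹ : ℝ) : ℂ) • (S (-(α + (j + 1) * r n))
              ((E (r n) 0 - E (r n) t) (J (r n) (y n j (G t u))))) := by
          simp only [hR, stp_apply, map_sum, map_smul]
          rw [← Finset.sum_sub_distrib]
          refine Finset.sum_congr rfl fun j hj => ?_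
          rw [← smul_sub]
          congr 1
          rw [sub_apply, map_sub, F.E_J _ _ (hr0 n)]
          congr 1
          have hj' := hin n j (Finset.mem_range.1 hj)
          set s : ℝ := α + (j + 1) * r n with hs
          have h6 : (κ (G t) * e t) * S (-s) =
              Complex.exp (2 * Real.pi * I * t * ((-s : ℝ) : ℂ)) • (S (-s) * (e t * κ (G t))) := by
            rw [mul_assoc (κ (G t)), F.e_S, mul_smul_comm, ← mul_assoc (κ (G t)), F.κ_S,
              mul_assoc (S (-s)), F.κ_e]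
          have h7 : (κ (G t) * e t) (S (-s) (J (r n) (y n j u))) =
              Complex.exp (2 * Real.pi * I * t * ((-s : ℝ) : ℂ)) •
                S (-s) (e t (κ (G t) (J (r n) (y n j u)))) := by
            rw [← mul_ap (κ (G t) * e t), h6]
            rfl
          rw [h7, F.κ_J _ _ _ (hr0 n)]
          have h8 : G t (y n j u) = Complex.exp (2 * Real.pi * I * s * t) • y n j (G t u) :=
            congrArg (fun X : H →L[ℂ] H => X u) (hxe s hj' t)
          rw [h8, map_smul, map_smul, map_smul, smul_smul, ← Complex.exp_add, F.e_J _ _ _ (hr0 n)]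
          have h9 : 2 * (Real.pi : ℂ) * I * t * ((-s : ℝ) : ℂ) + 2 * Real.pi * I * s * t = 0 := by
            push_cast; ring
          rw [h9, Complex.exp_zero, one_smul]
        rw [h5]
        refine (norm_sum_le _ _).trans ?_
        have hEb : ‖E (r n) 0 - E (r n) t‖ ≤ Real.exp (2 * Real.pi * |t| * r n) - 1 := by
          rw [← norm_neg, neg_sub]
          have h10 := F.E_norm (r n) t (hr0 n)
          rwa [Complex.norm_real, Real.norm_eq_abs] at h10
        have hterm : ∀ j ∈ Finset.range (n + 1), ‖(((Real.sqrt (n + 1 : ℕ))⁻¹ : ℝ) : ℂ) •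
            (S (-(α + (j + 1) * r n)) ((E (r n) 0 - E (r n) t) (J (r n) (y n j (G t u)))))‖ ≤
            (Real.sqrt (n + 1 : ℕ))⁻¹ * ((Real.exp (2 * Real.pi * |t| * r n) - 1) * ‖u‖) := by
          intro j hj
          have hj' := hin n j (Finset.mem_range.1 hj)
          rw [norm_smul, Complex.norm_real, Real.norm_of_nonneg (by positivity), S_norm F]
          refine mul_le_mul_of_nonneg_left ?_ (by positivity)
          refine ((E (r n) 0 - E (r n) t).le_of_opNorm_le hEb _).trans ?_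
          refine mul_le_mul_of_nonneg_left ?_ ((norm_nonneg _).trans hEb)
          rw [J_norm F (hr0 n)]
          have h11 := (y n j).le_of_opNorm_le (hx1 _ hj') (G t u)
          have h12 := (G t).le_of_opNorm_le (hG1 t) u
          rw [one_mul] at h11 h12
          exact h11.trans h12
        refine (Finset.sum_le_sum hterm).trans (le_of_eq ?_)
        rw [Finset.sum_const, Finset.card_range, nsmul_eq_mul]
        have h13 : ((n + 1 : ℕ) : ℝ) * (Real.sqrt (n + 1 : ℕ))⁻¹ = Real.sqrt (n + 1 : ℕ) := by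
          have h14 : (0 : ℝ) < Real.sqrt (n + 1 : ℕ) := Real.sqrt_pos.2 (by positivity)
          rw [← div_eq_mul_inv, div_eq_iff h14.ne', Real.mul_self_sqrt (by positivity)]
        rw [← mul_assoc, h13]
        ring
      refine squeeze_zero (fun _ => norm_nonneg _) hb ?_
      -- `√(n+1) (e^{c/(n+1)} - 1) → 0`
      have hk : Tendsto (fun n : ℕ => Real.sqrt (n + 1 : ℕ) *
          (Real.exp (2 * Real.pi * |t| * r n) - 1)) atTop (𝓝 0) := by
        set c : ℝ := 2 * Real.pi * |t| * (β - α) with hc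
        have hc0 : 0 ≤ c := by positivity
        have hlow : ∀ n : ℕ, 0 ≤ Real.sqrt (n + 1 : ℕ) * (Real.exp (2 * Real.pi * |t| * r n) - 1) := by
          intro n
          have h15 : 0 ≤ 2 * Real.pi * |t| * r n := by have := (hr0 n).le; positivity
          have h16 := Real.add_one_le_exp (2 * Real.pi * |t| * r n)
          have : 0 ≤ Real.exp (2 * Real.pi * |t| * r n) - 1 := by linarith
          positivity
        have hup : ∀ n : ℕ, Real.sqrt (n + 1 : ℕ) * (Real.exp (2 * Real.pi * |t| * r n) - 1) ≤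
            (c * Real.exp c) * (Real.sqrt (n + 1 : ℕ))⁻¹ := by
          intro n
          have hn0 : (0 : ℝ) < (n + 1 : ℕ) := by positivity
          have h17 : 2 * Real.pi * |t| * r n = c / (n + 1 : ℕ) := by rw [hc, hr]; ring
          rw [h17]
          have h18 : Real.exp (c / (n + 1 : ℕ)) - 1 ≤ (c / (n + 1 : ℕ)) * Real.exp c := by
            have h19 := Real.add_one_le_exp (-(c / (n + 1 : ℕ)))
            have h20 : Real.exp (c / (n + 1 : ℕ)) * Real.exp (-(c / (n + 1 : ℕ))) = 1 := by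
              rw [← Real.exp_add]; simp
            have h21 : Real.exp (c / (n + 1 : ℕ)) ≤ Real.exp c := by
              refine Real.exp_le_exp.2 (div_le_self hc0 ?_)
              exact_mod_cast Nat.succ_pos n
            have h22 : 0 < Real.exp (c / (n + 1 : ℕ)) := Real.exp_pos _
            have h23 : 0 ≤ c / (n + 1 : ℕ) := by positivity
            nlinarith
          calc Real.sqrt (n + 1 : ℕ) * (Real.exp (c / (n + 1 : ℕ)) - 1)
              ≤ Real.sqrt (n + 1 : ℕ) * ((c / (n + 1 : ℕ)) * Real.exp c) :=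
                mul_le_mul_of_nonneg_left h18 (Real.sqrt_nonneg _)
            _ = (c * Real.exp c) * (Real.sqrt (n + 1 : ℕ) / (n + 1 : ℕ)) := by ring
            _ = (c * Real.exp c) * (Real.sqrt (n + 1 : ℕ))⁻¹ := by
                rw [Real.sqrt_div_self]
        refine squeeze_zero hlow hup ?_
        have h24 : Tendsto (fun n : ℕ => (Real.sqrt (n + 1 : ℕ))⁻¹) atTop (𝓝 0) := by
          refine tendsto_inv_atTop_zero.comp (Real.tendsto_sqrt_atTop.comp ?_)
          exact tendsto_natCast_atTop_atTop.comp (tendsto_add_atTop_nat 1)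
        have h25 := h24.const_mul (c * Real.exp c)
        rwa [mul_zero] at h25
      have h26 := (hk.mul_const ‖u‖).const_mul ‖a‖
      rw [zero_mul, mul_zero] at h26
      exact h26
    have h4 := h1.sub h2
    exact sub_eq_zero.1 (tendsto_nhds_unique h4 h3)
  · -- non-vanishing
    intro h0
    set f : K := Q (S (-β) (J (β - α) η)) with hf
    have h1 := hlim v f
    rw [h0, inner_zero_right] at h1
    have h2 : ∀ n : ℕ, 1 / 4 ≤ (⟪f, Q (R n v)⟫_ℂ).re := by
      intro n
      have hn : 0 < n + 1 := Nat.succ_pos n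
      -- `Q` preserves inner products
      have hQi : ∀ a b : K, ⟪Q a, Q b⟫_ℂ = ⟪a, b⟫_ℂ := by
        intro a b
        let Q' : K →ₗᵢ[ℂ] K := ⟨Q.toLinearMap, hQ⟩
        exact Q'.inner_map_map a b
      rw [hf, hQi, stp_const F α hαβ hn η, hR]
      simp only
      rw [stp_apply, sum_inner]
      have h3 : ∀ i ∈ Finset.range (n + 1),
          ⟪(((Real.sqrt (n + 1 : ℕ))⁻¹ : ℝ) : ℂ) • S (-(α + (i + 1) * r n)) (J (r n) η),
            ∑ j ∈ Finset.range (n + 1), (((Real.sqrt (n + 1 : ℕ))⁻¹ : ℝ) : ℂ) •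
              S (-(α + (j + 1) * r n)) (J (r n) (y n j v))⟫_ℂ =
          (((n + 1 : ℕ) : ℝ)⁻¹ : ℝ) * ⟪η, y n i v⟫_ℂ := by
        intro i hi
        rw [inner_sum, Finset.sum_eq_single i]
        · rw [inner_smul_left, inner_smul_right, Complex.conj_ofReal, ← mul_assoc, ← Complex.ofReal_mul]
          have h4 : (Real.sqrt (n + 1 : ℕ))⁻¹ * (Real.sqrt (n + 1 : ℕ))⁻¹ = ((n + 1 : ℕ) : ℝ)⁻¹ := by
            rw [← mul_inv, Real.mul_self_sqrt (by positivity)]
          rw [h4]
          congr 1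
          rw [← ContinuousLinearMap.adjoint_inner_right (S _), ← ContinuousLinearMap.star_eq_adjoint,
            F.S_star, ← mul_ap, S_neg_mul F]
          exact J_inner F (hr0 n) _ _
        · intro j hj hji
          have h5 := stp_orth F α (hr0 n) (((Real.sqrt (n + 1 : ℕ))⁻¹ : ℝ) : ℂ)
            (fun k => if k = i then η else y n k v) i j (Ne.symm hji)
          simp only [↓reduceIte, if_neg hji] at h5
          exact h5
        · intro h; exact absurd hi h
      have h3' := Finset.sum_congr rfl h3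
      simp only [hr] at h3' ⊢
      rw [h3', Complex.re_sum]
      have h6 : ∀ i ∈ Finset.range (n + 1), ((n + 1 : ℕ) : ℝ)⁻¹ * (1 / 4) ≤
          (((((n + 1 : ℕ) : ℝ)⁻¹ : ℝ) : ℂ) * ⟪η, y n i v⟫_ℂ).re := by
        intro i hi
        rw [Complex.re_ofReal_mul]
        exact mul_le_mul_of_nonneg_left (hxη _ (hin n i (Finset.mem_range.1 hi))) (by positivity)
      refine le_trans (le_of_eq ?_) (Finset.sum_le_sum h6)
      rw [Finset.sum_const, Finset.card_range, nsmul_eq_mul]
      have : ((n + 1 : ℕ) : ℝ) ≠ 0 := by positivity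
      field_simp
    have h7 : Tendsto (fun n => (⟪f, Q (R n v)⟫_ℂ).re) (Uf : Filter ℕ) (𝓝 0) := by
      have := (Complex.continuous_re.tendsto 0).comp h1
      rwa [Complex.zero_re] at this
    have h8 := ge_of_tendsto' h7 h2
    norm_num at h8

end

end Pool.Agent.Lead.BCB
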