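import Pool.Agent.H75.BC.FB

/-!
Phase B (lead): operators commuting with all `e t` and `S p` are of the form `κ y`.
-/

set_option autoImplicit false

open MeasureTheory Filter Topology Complex
open scoped InnerProductSpace ENNReal

namespace Pool.Agent.Lead.BCB

open Pool.Agent.W662.CB Pool.Agent.H75.BC Pool.Agent.H75.BC.FB

noncomputable section

variable {H : Type} [NormedAddCommGroup H] [InnerProductSpace ℂ H] [CompleteSpace H]
  {K : Type} [NormedAddCommGroup K] [InnerProductSpace ℂ K] [CompleteSpace K]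
  {U : ℝ → H →L[ℂ] H} {κ : (H →L[ℂ] H) →⋆ₐ[ℂ] (K →L[ℂ] K)} {e S : ℝ → K →L[ℂ] K}
  {W : K →L[ℂ] K} {J : ℝ → H →L[ℂ] K} {E : ℝ → ℂ → K →L[ℂ] K}

omit [CompleteSpace K] in
theorem mul_ap (A B : K →L[ℂ] K) (x : K) : (A * B) x = A (B x) := rfl

/-- translated boxes kill `J`-vectors of smaller pieces -/
theorem bx_J_comm (F : Frame U κ e S W J E) {T : K →L[ℂ] K} (hS : ∀ p : ℝ, T * S p = S p * T)
    (he : ∀ t : ℝ, T * e t = e t * T) {r : ℝ} (hr : 0 < r) (p : ℝ) :
    T * bx S E p r = bx S E p r * T := by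
  unfold bx
  calc T * (S p * E r 0 * S (-p)) = (T * S p) * E r 0 * S (-p) := by simp only [mul_assoc]
    _ = S p * (T * E r 0) * S (-p) := by rw [hS]; simp only [mul_assoc]
    _ = S p * E r 0 * (T * S (-p)) := by rw [F.E_comm T he r 0 hr]; simp only [mul_assoc]
    _ = S p * E r 0 * S (-p) * T := by rw [hS]; simp only [mul_assoc]

/-- the slice of an operator that commutes with `e` and `S` does not depend on the subdivision -/
theorem slice_sub (F : Frame U κ e S W J E) {T : K →L[ℂ] K} (hS : ∀ p : ℝ, T * S p = S p * T)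
    (he : ∀ t : ℝ, T * e t = e t * T) {r : ℝ} (hr : 0 < r) (n : ℕ) (hn : 0 < n) (v w : H) :
    ⟪J r v, T (J r w)⟫_ℂ = ⟪J (r / n) v, T (J (r / n) w)⟫_ℂ := by
  have hn' : (0 : ℝ) < n := Nat.cast_pos.2 hn
  have hrn : 0 < r / n := div_pos hr hn'
  have hJ : J r w = E r 0 (J r w) := (F.E_J r w hr).symm
  have h0 : T (J r w) = ∑ k ∈ Finset.range n, T (bx S E (k * (r / n)) (r / n) (J r w)) := by
    conv_lhs => rw [hJ, F.box_sum r n hr hn]
    rw [sum_apply, map_sum]
  rw [h0, inner_sum]
  have h1 : ∀ k ∈ Finset.range n, ⟪J r v, T (bx S E (k * (r / n)) (r / n) (J r w))⟫_ℂ =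
      ((1 / n : ℝ) : ℂ) * ⟪J (r / n) v, T (J (r / n) w)⟫_ℂ := by
    intro k hk
    have hk' : (k : ℝ) + 1 ≤ n := by exact_mod_cast Finset.mem_range.1 hk
    set P := bx S E (k * (r / n)) (r / n) with hP
    have hPP : P * P = P := by
      have h2 := F.E_add (r / n) 0 0 hrn
      rw [add_zero] at h2
      rw [hP]
      unfold bx
      calc S (k * (r / n)) * E (r / n) 0 * S (-(k * (r / n))) * (S (k * (r / n)) * E (r / n) 0 *
            S (-(k * (r / n)))) = S (k * (r / n)) * E (r / n) 0 * (S (-(k * (r / n))) *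
            S (k * (r / n))) * E (r / n) 0 * S (-(k * (r / n))) := by simp only [mul_assoc]
        _ = S (k * (r / n)) * (E (r / n) 0 * E (r / n) 0) * S (-(k * (r / n))) := by
            rw [S_neg_mul F, mul_one]; simp only [mul_assoc]
        _ = _ := by rw [← h2]
    have hPs : star P = P := bx_sa F hrn _
    have hcm : T * P = P * T := bx_J_comm F hS he hrn _
    have hb : ∀ u : H, P (J r u) =
        ((Real.sqrt (r / n / r) : ℝ) : ℂ) • S (k * (r / n)) (J (r / n) u) := fun u =>
      F.box_J (k * (r / n)) (r / n) r u hrn (by positivity) (by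
        have h3 : (k : ℝ) * (r / n) + r / n = (k + 1) * (r / n) := by ring
        rw [h3]
        calc ((k : ℝ) + 1) * (r / n) ≤ n * (r / n) := mul_le_mul_of_nonneg_right hk' hrn.le
          _ = r := by field_simp)
    have h4 : T (P (J r w)) = P (T (P (J r w))) := by
      have h5 : T (P (P (J r w))) = P (T (P (J r w))) := by
        rw [← mul_ap T P, hcm, mul_ap]
      rw [← mul_ap P P, hPP] at h5
      exact h5
    rw [h4, ← ContinuousLinearMap.adjoint_inner_left, ← ContinuousLinearMap.star_eq_adjoint, hPs,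
      hb v, hb w, map_smul, inner_smul_left, inner_smul_right, Complex.conj_ofReal, ← mul_assoc,
      ← Complex.ofReal_mul, Real.mul_self_sqrt (by positivity)]
    have h6 : r / n / r = 1 / n := by field_simp
    rw [h6]
    congr 1
    rw [← mul_ap T, hS, mul_ap, ← ContinuousLinearMap.adjoint_inner_left,
      ← ContinuousLinearMap.star_eq_adjoint, F.S_star, ← mul_ap, S_neg_mul F]
    rfl
  rw [Finset.sum_congr rfl h1, Finset.sum_const, Finset.card_range, nsmul_eq_mul, ← mul_assoc]
  have h7 : (n : ℂ) * ((1 / n : ℝ) : ℂ) = 1 := by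
    have hn0 : (n : ℂ) ≠ 0 := by exact_mod_cast hn.ne'
    push_cast
    field_simp
  rw [h7, one_mul]

/-- `T J_r v = J_r (y v)` with `y` the slice -/
theorem comm_J (F : Frame U κ e S W J E) {T : K →L[ℂ] K} (hS : ∀ p : ℝ, T * S p = S p * T)
    (he : ∀ t : ℝ, T * e t = e t * T) {r : ℝ} (hr : 0 < r) (v : H) :
    T (J r v) = J r ((ContinuousLinearMap.adjoint (J r)) (T (J r v))) := by
  set y : H := (ContinuousLinearMap.adjoint (J r)) (T (J r v)) with hy
  have hTE : T (J r v) = E r 0 (T (J r v)) := by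
    have h1 := F.E_comm T he r 0 hr
    have h2 : T (E r 0 (J r v)) = E r 0 (T (J r v)) := by rw [← mul_ap, h1, mul_ap]
    rwa [F.E_J r v hr] at h2
  have hfl := F.flat r hr (T (J r v))
  rw [← hTE] at hfl
  have hfl2 := F.flat r hr (J r y)
  rw [F.E_J r y hr] at hfl2
  refine tendsto_nhds_unique hfl ?_
  refine hfl2.congr fun n => ?_
  refine Finset.sum_congr rfl fun k hk => ?_
  congr 2
  have hn : 0 < n + 1 := Nat.succ_pos n
  have hn' : (0 : ℝ) < (n + 1 : ℕ) := Nat.cast_pos.2 hn
  set d : ℝ := r / (n + 1 : ℕ) with hd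
  have hd0 : 0 < d := div_pos hr hn'
  have hk' : (k : ℝ) + 1 ≤ (n + 1 : ℕ) := by exact_mod_cast Finset.mem_range.1 hk
  have hb : ∀ u : H, bx S E (k * d) d (J r u) =
      ((Real.sqrt (d / r) : ℝ) : ℂ) • S (k * d) (J d u) := fun u =>
    F.box_J (k * d) d r u hd0 (by positivity) (by
      have h3 : (k : ℝ) * d + d = (k + 1) * d := by ring
      rw [h3]
      calc ((k : ℝ) + 1) * d ≤ (n + 1 : ℕ) * d := mul_le_mul_of_nonneg_right hk' hd0.le
        _ = r := by rw [hd]; field_simp)
  -- the general formula for the flat component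
  have hcomp : ∀ (T : K →L[ℂ] K), (∀ p : ℝ, T * S p = S p * T) → (∀ t : ℝ, T * e t = e t * T) →
      ∀ u : H, ContinuousLinearMap.adjoint (J d) (S (-(k * d)) (T (J r u))) =
      ((Real.sqrt (d / r) : ℝ) : ℂ) • ContinuousLinearMap.adjoint (J d) (T (J d u)) := by
    intro T hS he u
    refine ext_inner_left ℂ fun z => ?_
    rw [ContinuousLinearMap.adjoint_inner_right]
    have h5 : J d z = E d 0 (J d z) := (F.E_J d z hd0).symm
    have h6 : E d 0 (S (-(k * d)) (T (J r u))) = S (-(k * d)) (T (bx S E (k * d) d (J r u))) := by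
      have h7 := bx_J_comm F hS he hd0 (k * d)
      have h8 : T (bx S E (k * d) d (J r u)) = bx S E (k * d) d (T (J r u)) := by
        rw [← mul_ap, h7, mul_ap]
      rw [h8]
      change E d 0 (S (-(k * d)) (T (J r u))) =
        S (-(k * d)) (S (k * d) (E d 0 (S (-(k * d)) (T (J r u)))))
      rw [← mul_ap (S (-(k * d))) (S (k * d)), S_neg_mul F]
      rfl
    rw [h5, ← ContinuousLinearMap.adjoint_inner_right, ← ContinuousLinearMap.star_eq_adjoint,
      E_sa F hd0, h6, hb u, map_smul, map_smul, inner_smul_right, inner_smul_right,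
      ContinuousLinearMap.adjoint_inner_right]
    congr 1
    have h9 : S (-(k * d)) (T (S (k * d) (J d u))) = T (J d u) := by
      rw [← mul_ap T, hS, mul_ap, ← mul_ap, S_neg_mul F]
      rfl
    rw [h9]
  have h1 := hcomp 1 (fun p => by rw [one_mul, mul_one]) (fun t => by rw [one_mul, mul_one]) y
  have h2 := hcomp T hS he v
  simp only [one_apply_eq_self] at h1
  rw [h1, h2]
  congr 1
  rw [F.J_iso d y hd0]
  -- `J_d* T J_d v = J_r* T J_r v`
  refine ext_inner_left ℂ fun z => ?_
  rw [ContinuousLinearMap.adjoint_inner_right, ContinuousLinearMap.adjoint_inner_right]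
  exact slice_sub F hS he hr (n + 1) hn z v

/-- the vectors `S p (J r v)` are total -/
theorem total_J (F : Frame U κ e S W J E) {T : K →L[ℂ] K}
    (h : ∀ (p r : ℝ) (v : H), 0 < r → T (S p (J r v)) = 0) : T = 0 := by
  ext u
  have h1 : ∀ R : ℝ, 0 < R → T (bx S E (-R) (2 * R) u) = 0 := by
    intro R hR
    have hR2 : 0 < 2 * R := by positivity
    have hfl := F.flat (2 * R) hR2 (S R u)
    have h2 := ((T.continuous.comp (S (-R)).continuous).tendsto (E (2 * R) 0 (S R u))).comp hfl
    have h3 : bx S E (-R) (2 * R) u = S (-R) (E (2 * R) 0 (S R u)) := by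
      unfold bx
      rw [neg_neg]
      rfl
    rw [h3]
    refine tendsto_nhds_unique h2 ?_
    refine tendsto_const_nhds.congr fun n => ?_
    simp only [Function.comp_apply, map_sum]
    symm
    refine Finset.sum_eq_zero fun k _ => ?_
    have h4 : S (-R) (S (k * (2 * R / (n + 1 : ℕ))) (J (2 * R / (n + 1 : ℕ))
        (ContinuousLinearMap.adjoint (J (2 * R / (n + 1 : ℕ)))
        (S (-(k * (2 * R / (n + 1 : ℕ)))) (S R u))))) =
        S (-R + k * (2 * R / (n + 1 : ℕ))) (J (2 * R / (n + 1 : ℕ))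
        (ContinuousLinearMap.adjoint (J (2 * R / (n + 1 : ℕ)))
        (S (-(k * (2 * R / (n + 1 : ℕ)))) (S R u)))) := by
      rw [F.S_add]
      rfl
    rw [h4]
    exact h _ _ _ (by positivity)
  have h5 := (T.continuous.tendsto u).comp (F.exhaust u)
  refine tendsto_nhds_unique h5 ?_
  refine (tendsto_const_nhds (x := (0 : K))).congr' ?_
  filter_upwards [eventually_gt_atTop (0 : ℝ)] with R hR
  exact (h1 R hR).symm

/-- Weyl irreducibility: an operator that commutes with all `e t` and `S p` is `κ y`. -/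
theorem weyl (F : Frame U κ e S W J E) {T : K →L[ℂ] K} (hS : ∀ p : ℝ, T * S p = S p * T)
    (he : ∀ t : ℝ, T * e t = e t * T) : ∃ y : H →L[ℂ] H, T = κ y := by
  refine ⟨sl (J 1) T, ?_⟩
  have hy : ∀ (r : ℝ) (v : H), 0 < r → T (J r v) = J r (sl (J 1) T v) := by
    intro r v hr
    rw [comm_J F hS he hr v]
    congr 1
    -- independence of `r`
    have key : ∀ (r r' : ℝ) (v : H), 0 < r → 0 < r' →
        ContinuousLinearMap.adjoint (J r) (T (J r v)) =
        ContinuousLinearMap.adjoint (J r') (T (J r' v)) := by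
      intro r r' v hr hr'
      wlog hrr : r ≤ r' generalizing r r'
      · exact (this r' r hr' hr (le_of_not_ge hrr)).symm
      -- `bx 0 r (T J_{r'} v)` in two ways
      set y : H := ContinuousLinearMap.adjoint (J r) (T (J r v)) with hy
      set y' : H := ContinuousLinearMap.adjoint (J r') (T (J r' v)) with hy'
      have e1 : T (J r v) = J r y := comm_J F hS he hr v
      have e2 : T (J r' v) = J r' y' := comm_J F hS he hr' v
      have hb : ∀ u : H, bx S E 0 r (J r' u) = ((Real.sqrt (r / r') : ℝ) : ℂ) • S 0 (J r u) :=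
        fun u => F.box_J 0 r r' u hr le_rfl (by rw [zero_add]; exact hrr)
      have h1 : bx S E 0 r (T (J r' v)) = T (bx S E 0 r (J r' v)) := by
        rw [← mul_ap, ← bx_J_comm F hS he hr 0, mul_ap]
      rw [e2, hb, hb, map_smul, F.S_zero] at h1
      have hne : ((Real.sqrt (r / r') : ℝ) : ℂ) ≠ 0 := by
        have : 0 < Real.sqrt (r / r') := Real.sqrt_pos.2 (div_pos hr hr')
        exact_mod_cast this.ne'
      have h2 : (1 : K →L[ℂ] K) (J r y') = T ((1 : K →L[ℂ] K) (J r v)) :=
        smul_right_injective K hne h1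
      simp only [one_apply_eq_self] at h2
      rw [e1] at h2
      have h3 : y' = y := by
        have h4 := congrArg (ContinuousLinearMap.adjoint (J r)) h2
        rwa [F.J_iso r _ hr, F.J_iso r _ hr] at h4
      exact h3.symm
    exact key r 1 v hr one_pos
  have h0 : T - κ (sl (J 1) T) = 0 := by
    refine total_J F fun p r v hr => ?_
    rw [sub_apply]
    have h1 : T (S p (J r v)) = S p (T (J r v)) := by rw [← mul_ap, hS, mul_ap]
    have h2 : κ (sl (J 1) T) (S p (J r v)) = S p (J r (sl (J 1) T v)) := by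
      rw [← mul_ap, F.κ_S, mul_ap, F.κ_J _ _ _ hr]
    rw [h1, h2, hy r v hr, sub_self]
  exact sub_eq_zero.1 h0

end

end Pool.Agent.Lead.BCB
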